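import Pool.Agent.Lib.MP_deca50_lc.Even.Defs

namespace Pool.Agent.Lib.MP_deca50_lc.Even

variable {F : Type} [Field F]

namespace Upper

/-- On an information set every pattern is taken. -/
theorem surj {n k : ℕ} (C : Submodule F (Fin n → F)) (hC : Module.finrank F C = k)
    (h : ∀ A : Finset (Fin n), A.card = k → ∀ x ∈ C, (∀ i ∈ A, x i = 0) → x = 0)
    (B : Finset (Fin n)) (hB : B.card = k) (g : Fin n → F) :
    ∃ x ∈ C, ∀ i ∈ B, x i = g i := by
  let r : C →ₗ[F] (B → F) :=
    (LinearMap.funLeft F F (fun i : B => (i : Fin n))).comp C.subtype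
  have hinj : Function.Injective r := by
    rw [← LinearMap.ker_eq_bot, LinearMap.ker_eq_bot']
    intro x hx
    apply Subtype.ext
    refine h B hB x.1 x.2 fun i hi => ?_
    exact congrFun hx ⟨i, hi⟩
  have hdim : Module.finrank F C = Module.finrank F (B → F) := by
    rw [hC, Module.finrank_fintype_fun_eq_card, Fintype.card_coe, hB]
  have hsurj : Function.Surjective r :=
    (LinearMap.injective_iff_surjective_of_finrank_eq_finrank hdim).mp hinj
  obtain ⟨x, hx⟩ := hsurj (fun i : B => g i)
  exact ⟨x.1, x.2, fun i hi => congrFun hx ⟨i, hi⟩⟩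

end Upper

theorem MDS.dual {n k : ℕ} (h : MDS F n k) (hk : k ≤ n) : MDS F n (n - k) := by
  classical
  obtain ⟨C, hC, hA⟩ := h
  let B : LinearMap.BilinForm F (Fin n → F) := dotProductBilin F F
  have hB : ∀ x y, B x y = x ⬝ᵥ y := fun _ _ => rfl
  have hker : LinearMap.ker B = ⊥ := by
    rw [LinearMap.ker_eq_bot']
    intro x hx
    funext i
    have := congrArg (fun f : (Fin n → F) →ₗ[F] F => f (Pi.single i 1)) hx
    simpa [hB] using this
  refine ⟨B.orthogonal C, ?_, ?_⟩
  · have := LinearMap.BilinForm.finrank_add_finrank_orthogonal' (B := B) C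
    rw [hker, inf_bot_eq, finrank_bot, add_zero, hC, Module.finrank_fintype_fun_eq_card,
      Fintype.card_fin] at this
    omega
  · intro A hAc y hy hy0
    funext i
    by_cases hi : i ∈ A
    · exact hy0 i hi
    · have hc : Aᶜ.card = k := by
        rw [Finset.card_compl, Fintype.card_fin, hAc]; omega
      obtain ⟨x, hxC, hx⟩ := Upper.surj C hC hA Aᶜ hc (Pi.single i 1)
      have h0 : B x y = 0 := (LinearMap.BilinForm.mem_orthogonal_iff.mp hy) x hxC
      rw [hB, dotProduct, Finset.sum_eq_single i] at h0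
      · rw [hx i (Finset.mem_compl.mpr hi)] at h0
        simpa using h0
      · intro j _ hj
        by_cases hjA : j ∈ A
        · rw [hy0 j hjA, mul_zero]
        · rw [hx j (Finset.mem_compl.mpr hjA), Pi.single_eq_of_ne hj, zero_mul]
      · intro hh
        exact absurd (Finset.mem_univ i) hh

theorem MDS.puncture {n k : ℕ} (h : MDS F (n + 1) k) (hk : k ≤ n) : MDS F n k := by
  classical
  obtain ⟨C, hC, hA⟩ := h
  let r : (Fin (n + 1) → F) →ₗ[F] (Fin n → F) := LinearMap.funLeft F F Fin.castSucc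
  have key : ∀ A : Finset (Fin n), A.card = k → ∀ x ∈ C, (∀ i ∈ A, r x i = 0) → x = 0 := by
    intro A hAc x hx h0
    refine hA (A.map Fin.castSuccEmb) (by rw [Finset.card_map, hAc]) x hx fun i hi => ?_
    obtain ⟨j, hj, rfl⟩ := Finset.mem_map.mp hi
    exact h0 j hj
  obtain ⟨A0, -, hA0⟩ := Finset.exists_subset_card_eq (s := (Finset.univ : Finset (Fin n)))
    (n := k) (by simpa using hk)
  have hinj : Function.Injective (r.comp C.subtype) := by
    rw [← LinearMap.ker_eq_bot, LinearMap.ker_eq_bot']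
    intro x hx
    apply Subtype.ext
    exact key A0 hA0 x.1 x.2 fun i _ => congrFun hx i
  refine ⟨LinearMap.range (r.comp C.subtype), ?_, ?_⟩
  · rw [LinearMap.finrank_range_of_inj hinj, hC]
  · intro A hAc y hy hy0
    obtain ⟨x, rfl⟩ := hy
    have : x.1 = 0 := key A hAc x.1 x.2 hy0
    simp [this]

theorem MDS.shorten {n k : ℕ} (h : MDS F (n + 1) (k + 1)) (hk : k ≤ n) : MDS F n k := by
  have h1 := h.dual (by omega)
  have h2 := (h1.puncture (by omega)).dual (by omega)
  have e : n - (n + 1 - (k + 1)) = k := by omega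
  rwa [e] at h2

theorem not_MDS_two [Fintype F] : ¬ MDS F (Fintype.card F + 2) 2 := by
  classical
  obtain ⟨q, hq⟩ : ∃ q, q = Fintype.card F := ⟨_, rfl⟩
  rw [← hq]
  rintro ⟨C, hC, hA⟩
  let a : Fin (q + 2) := 0
  let b : Fin (q + 2) := 1
  have hab : a ≠ b := by simp [a, b]
  have hc : ({a, b} : Finset (Fin (q + 2))).card = 2 := Finset.card_pair hab
  obtain ⟨u, huC, hu⟩ := Upper.surj C hC hA {a, b} hc (Pi.single a 1)
  obtain ⟨v, hvC, hv⟩ := Upper.surj C hC hA {a, b} hc (Pi.single b 1)
  have hua : u a = 1 := by rw [hu a (by simp)]; simp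
  have hub : u b = 0 := by rw [hu b (by simp)]; exact Pi.single_eq_of_ne hab.symm _
  have hvb : v b = 1 := by rw [hv b (by simp)]; simp
  have two : ∀ i j : Fin (q + 2), i ≠ j → ∀ x ∈ C, x i = 0 → x j = 0 → x = 0 := by
    intro i j hij x hx hi hj
    refine hA {i, j} (Finset.card_pair hij) x hx fun l hl => ?_
    rcases Finset.mem_insert.mp hl with rfl | hl
    · exact hi
    · rw [Finset.mem_singleton.mp hl]; exact hj
  have hu0 : ∀ i, i ≠ b → u i ≠ 0 := by
    intro i hi h0
    have := congrFun (two i b hi u huC h0 hub) a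
    rw [hua] at this
    exact one_ne_zero this
  have hinj : Set.InjOn (fun i => v i / u i) (Finset.univ.erase b : Finset (Fin (q + 2))) := by
    intro i hi j hj hij
    by_contra hne
    have hi' : i ≠ b := Finset.ne_of_mem_erase (Finset.mem_coe.mp hi)
    have hj' : j ≠ b := Finset.ne_of_mem_erase (Finset.mem_coe.mp hj)
    have hij' : v i / u i = v j / u j := hij
    have hm : v - (v i / u i) • u ∈ C := C.sub_mem hvC (C.smul_mem _ huC)
    have h1 : (v - (v i / u i) • u) i = 0 := by
      simp only [Pi.sub_apply, Pi.smul_apply, smul_eq_mul]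
      rw [div_mul_cancel₀ _ (hu0 i hi'), sub_self]
    have h2 : (v - (v i / u i) • u) j = 0 := by
      simp only [Pi.sub_apply, Pi.smul_apply, smul_eq_mul]
      rw [hij', div_mul_cancel₀ _ (hu0 j hj'), sub_self]
    have := congrFun (two i j hne _ hm h1 h2) b
    simp [hub, hvb] at this
  have hle := Finset.card_le_card_of_injOn (t := (Finset.univ : Finset F)) _
    (fun _ _ => Finset.mem_coe.mpr (Finset.mem_univ _)) hinj
  rw [Finset.card_erase_of_mem (Finset.mem_univ _), Finset.card_univ, Finset.card_univ,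
    Fintype.card_fin, ← hq] at hle
  omega

namespace Upper

theorem at_two [Fintype F]
    (core : ∀ k, 4 ≤ k → 2 * k ≤ Fintype.card F + 2 → ¬ MDS F (Fintype.card F + 2) k)
    {k : ℕ} (h : MDS F (Fintype.card F + 2) k) (h2 : 2 ≤ k) (hk : k ≤ Fintype.card F) :
    k = 3 ∨ k + 1 = Fintype.card F := by
  have hd := h.dual (by omega)
  by_contra hne
  have k2 : k ≠ 2 := by rintro rfl; exact not_MDS_two h
  have k2' : Fintype.card F + 2 - k ≠ 2 := by
    intro e; rw [e] at hd; exact not_MDS_two hd
  by_cases hs : 2 * k ≤ Fintype.card F + 2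
  · exact core k (by omega) hs h
  · exact core _ (by omega) (by omega) hd

theorem at_three [Fintype F] (hF : Even (Fintype.card F))
    (core : ∀ k, 4 ≤ k → 2 * k ≤ Fintype.card F + 2 → ¬ MDS F (Fintype.card F + 2) k)
    {k : ℕ} (h : MDS F (Fintype.card F + 2 + 1) k) (h2 : 2 ≤ k) (hk : k ≤ Fintype.card F + 1) :
    False := by
  obtain ⟨m, hm⟩ := hF
  have hq : 1 < Fintype.card F := Fintype.one_lt_card
  obtain ⟨j, rfl⟩ : ∃ j, k = j + 1 := ⟨k - 1, by omega⟩
  have hp := h.puncture (by omega)
  have hs := h.shorten (by omega)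
  by_cases h1 : j = 1
  · subst h1
    exact not_MDS_two hp
  by_cases h3 : j = Fintype.card F
  · have hd := hs.dual (by omega)
    have e : Fintype.card F + 2 - j = 2 := by omega
    rw [e] at hd
    exact not_MDS_two hd
  have a1 := at_two core hp (by omega) (by omega)
  have a2 := at_two core hs (by omega) (by omega)
  omega

theorem above [Fintype F] (hF : Even (Fintype.card F))
    (core : ∀ k, 4 ≤ k → 2 * k ≤ Fintype.card F + 2 → ¬ MDS F (Fintype.card F + 2) k)
    (m : ℕ) : ∀ k, MDS F (Fintype.card F + 2 + 1 + m) k → 2 ≤ k →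
      k + 2 ≤ Fintype.card F + 2 + 1 + m → False := by
  have hq : 1 < Fintype.card F := Fintype.one_lt_card
  induction m with
  | zero => intro k h h2 hk; exact at_three hF core h h2 (by omega)
  | succ m ih =>
    intro k h h2 hk
    have h' : MDS F (Fintype.card F + 2 + 1 + m + 1) k := h
    by_cases hc : k + 2 ≤ Fintype.card F + 2 + 1 + m
    · exact ih k (h'.puncture (by omega)) h2 hc
    · obtain ⟨j, rfl⟩ : ∃ j, k = j + 1 := ⟨k - 1, by omega⟩
      exact ih j (h'.shorten (by omega)) (by omega) (by omega)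

end Upper

/-- From the core range to all parameters. -/
theorem upper_of_core [Fintype F] (hF : Even (Fintype.card F))
    (core : ∀ k, 4 ≤ k → 2 * k ≤ Fintype.card F + 2 → ¬ MDS F (Fintype.card F + 2) k)
    {n k : ℕ} (h : MDS F n k) (h2 : 2 ≤ k) (hk : k + 2 ≤ n) :
    n ≤ Fintype.card F + 1 ∨
      (n = Fintype.card F + 2 ∧ (k = 3 ∨ k + 1 = Fintype.card F)) := by
  by_cases h1 : n ≤ Fintype.card F + 1
  · exact Or.inl h1
  by_cases h3 : n = Fintype.card F + 2
  · subst h3
    exact Or.inr ⟨rfl, Upper.at_two core h h2 (by omega)⟩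
  · obtain ⟨m, rfl⟩ : ∃ m, n = Fintype.card F + 2 + 1 + m :=
      ⟨n - (Fintype.card F + 2 + 1), by omega⟩
    exact (Upper.above hF core m k h h2 hk).elim

end Pool.Agent.Lib.MP_deca50_lc.Even
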