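import Pool.Agent.Lib.MP_deca50_lc.Even.StepC
import Pool.Agent.Lib.MP_deca50_lc.Even.Upper

/-! Square roots of code words in a pencil, and the main inequality. -/

namespace Pool.Agent.Lib.MP_deca50_lc.Even

open MvPolynomial

variable {F : Type} [Field F] {n k : ℕ} {C₀ : Submodule F (Fin n → F)}

theorem arc_of_words
    (hC : ∀ A : Finset (Fin n), A.card = k → ∀ x ∈ C₀, (∀ i ∈ A, x i = 0) → x = 0)
    {B : Finset (Fin n)} (hB : B.card + 3 = k) (hkn : k ≤ n) (c : Fin 3 → Fin n → F)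
    (hc : ∀ j, c j ∈ C₀) (hcB : ∀ j, ∀ i ∈ B, c j i = 0)
    (hind : ∀ w, (∀ s, dt w (fun j => c j s) = 0) → w = 0) :
    Arc (fun s j => c j s) Bᶜ := by
  have hcard : 3 ≤ Bᶜ.card := by rw [Finset.card_compl, Fintype.card_fin]; omega
  have h3 : ∀ a ∈ Bᶜ, ∀ b ∈ Bᶜ, ∀ d ∈ Bᶜ, a ≠ b → a ≠ d → b ≠ d →
      dt (fun j => c j d) (cr (fun j => c j a) (fun j => c j b)) ≠ 0 := by
    intro a ha b hb d hd hab had hbd h0
    have hdet : (Matrix.of ![fun j => c j a, fun j => c j b, fun j => c j d]).det = 0 := by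
      rw [Matrix.det_fin_three]
      simp [dt] at h0 ⊢
      linear_combination h0
    obtain ⟨w, hw, hw0⟩ := Matrix.exists_mulVec_eq_zero_iff.2 hdet
    have e0 := congrFun hw0 0
    have e1 := congrFun hw0 1
    have e2 := congrFun hw0 2
    simp [Matrix.mulVec, dotProduct, Fin.sum_univ_three] at e0 e1 e2
    rw [Finset.mem_compl] at ha hb hd
    have hy : w 0 • c 0 + w 1 • c 1 + w 2 • c 2 = 0 := by
      apply hC (insert a (insert b (insert d B)))
      · rw [Finset.card_insert_of_notMem (by simp [hab, had, ha]),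
          Finset.card_insert_of_notMem (by simp [hbd, hb]), Finset.card_insert_of_notMem hd]
        omega
      · exact C₀.add_mem (C₀.add_mem (C₀.smul_mem _ (hc 0)) (C₀.smul_mem _ (hc 1)))
          (C₀.smul_mem _ (hc 2))
      · intro i hi
        simp only [Finset.mem_insert] at hi
        simp only [Pi.add_apply, Pi.smul_apply, smul_eq_mul]
        rcases hi with rfl | rfl | rfl | hi
        · linear_combination e0
        · linear_combination e1
        · linear_combination e2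
        · simp [hcB _ i hi]
    apply hw
    apply hind
    intro s
    have := congrFun hy s
    simpa [dt] using this
  have h2 : ∀ a ∈ Bᶜ, ∀ b ∈ Bᶜ, a ≠ b → cr (fun j => c j a) (fun j => c j b) ≠ 0 := by
    intro a ha b hb hab h0
    have : ¬ Bᶜ ⊆ {a, b} := by
      intro hs
      have h1 := Finset.card_le_card hs
      have h2 := Finset.card_le_two (a := a) (b := b)
      omega
    obtain ⟨d, hd, hd'⟩ := Finset.not_subset.1 this
    simp only [Finset.mem_insert, Finset.mem_singleton, not_or] at hd'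
    apply h3 a ha b hb d hd hab (Ne.symm hd'.1) (Ne.symm hd'.2)
    rw [h0]; simp [dt]
  refine ⟨?_, h2, h3⟩
  intro a ha h0
  obtain ⟨b, hb, hba⟩ := Finset.exists_mem_ne (s := Bᶜ) (by omega) a
  apply h2 a ha b hb hba.symm
  have h0' : (fun j => c j a) = 0 := h0
  rw [h0']
  funext j
  fin_cases j <;> simp

variable [Fintype F] [CharP F 2]

theorem pencil (h : ℕ) (h1 : 1 ≤ h) (hq : Fintype.card F = 2 * 2 ^ h)
    (hk : Module.finrank F C₀ = k)
    (hC : ∀ A : Finset (Fin n), A.card = k → ∀ x ∈ C₀, (∀ i ∈ A, x i = 0) → x = 0)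
    (hkn : k ≤ n) {A₀ : Finset (Fin n)} (hA₀ : A₀.card + 2 = k) {s₁ s₂ : Fin n} (h₁ : s₁ ∉ A₀)
    (h₂ : s₂ ∉ A₀) (h12 : s₁ ≠ s₂) :
    ∃ a ∈ C₀, ∃ b ∈ C₀, (∀ i ∈ A₀, a i = 0) ∧ (∀ i ∈ A₀, b i = 0) ∧
      ∀ x ∈ C₀, ∃ G : MvPolynomial (Fin 3) F, G.IsHomogeneous (2 ^ h) ∧
        ∀ s, s ∉ A₀ → eval ![b s, a s, 0] G = x s ^ 2 ^ h := by
  let A := insert s₁ (insert s₂ A₀)
  have hA : A.card = k := by
    rw [Finset.card_insert_of_notMem (by simp [h12, h₁]), Finset.card_insert_of_notMem h₂]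
    omega
  choose e he1 he2 using fun j : Fin n => Upper.surj C₀ hk hC A hA (Pi.single j 1)
  have m1 : s₁ ∈ A := by simp [A]
  have m2 : s₂ ∈ A := by simp [A]
  have m0 : ∀ i ∈ A₀, i ∈ A := fun i hi => by simp [A, hi]
  have n1 : ∀ i ∈ A₀, i ≠ s₁ := fun i hi hh => h₁ (hh ▸ hi)
  have n2 : ∀ i ∈ A₀, i ≠ s₂ := fun i hi hh => h₂ (hh ▸ hi)
  have za : ∀ i ∈ A₀, e s₁ i = 0 := fun i hi => by
    rw [he2 _ i (m0 i hi), Pi.single_eq_of_ne (n1 i hi)]
  have zb : ∀ i ∈ A₀, e s₂ i = 0 := fun i hi => by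
    rw [he2 _ i (m0 i hi), Pi.single_eq_of_ne (n2 i hi)]
  refine ⟨e s₁, he1 _, e s₂, he1 _, za, zb, ?_⟩
  have hG : ∀ i ∈ A₀, ∃ G : MvPolynomial (Fin 3) F, G.IsHomogeneous (2 ^ h) ∧
      ∀ s, s ∉ A₀ → eval ![e s₂ s, e s₁ s, 0] G = e i s ^ 2 ^ h := by
    intro i hi
    have hpos : 0 < A₀.card := Finset.card_pos.2 ⟨i, hi⟩
    have harc := arc_of_words hC (B := A₀.erase i)
      (by rw [Finset.card_erase_of_mem hi]; omega) hkn ![e s₁, e s₂, e i]
      (fun j => by fin_cases j <;> exact he1 _)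
      (fun j l hl => by
        have hl' := Finset.mem_erase.1 hl
        fin_cases j
        · exact za l hl'.2
        · exact zb l hl'.2
        · show e i l = 0
          rw [he2 _ l (m0 l hl'.2), Pi.single_eq_of_ne hl'.1])
      (fun w hw => by
        have e0 := hw s₁
        have e1 := hw s₂
        have e2 := hw i
        simp [dt, he2 _ _ m1, he2 _ _ m2, he2 _ _ (m0 i hi), h12, h12.symm, n1 i hi, n2 i hi,
          (n1 i hi).symm, (n2 i hi).symm] at e0 e1 e2
        funext j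
        fin_cases j <;> simp [e0, e1, e2])
    obtain ⟨G, g1, g2⟩ := stepA h h1 hq harc (i := i) (by simp) (by
      funext j
      fin_cases j
      · exact za i hi
      · exact zb i hi
      · show e i i = 1
        rw [he2 _ i (m0 i hi), Pi.single_eq_same])
    refine ⟨G, g1, fun s hs => ?_⟩
    exact g2 s (by simp [hs]) (fun hh => hs (hh ▸ hi))
  choose! G g1 g2 using hG
  intro x hx
  have hdec : x - (∑ i ∈ A₀, x i • e i + x s₁ • e s₁ + x s₂ • e s₂) = 0 := by
    apply hC A hA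
    · exact C₀.sub_mem hx (C₀.add_mem (C₀.add_mem
        (C₀.sum_mem fun i _ => C₀.smul_mem _ (he1 i)) (C₀.smul_mem _ (he1 _)))
        (C₀.smul_mem _ (he1 _)))
    · intro l hl
      simp only [Pi.sub_apply, Pi.add_apply, Finset.sum_apply, Pi.smul_apply, smul_eq_mul,
        he2 _ l hl, Pi.single_apply, mul_ite, mul_one, mul_zero, Finset.sum_ite_eq]
      simp only [A, Finset.mem_insert] at hl
      rcases hl with rfl | rfl | hl
      · simp [h₁, h12]
      · simp [h₂, h12.symm]
      · simp [hl, n1 l hl, n2 l hl]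
  refine ⟨∑ i ∈ A₀, C (x i ^ 2 ^ h) * G i + C (x s₁ ^ 2 ^ h) * X 1 ^ 2 ^ h +
    C (x s₂ ^ 2 ^ h) * X 0 ^ 2 ^ h, ?_, ?_⟩
  · exact ((IsHomogeneous.sum _ _ _ fun i hi => (g1 i hi).C_mul _).add
      ((isHomogeneous_X_pow _ _).C_mul _)).add ((isHomogeneous_X_pow _ _).C_mul _)
  · intro s hs
    have e0 := congrFun (sub_eq_zero.1 hdec) s
    simp only [Pi.add_apply, Finset.sum_apply, Pi.smul_apply, smul_eq_mul] at e0
    rw [e0, add_pow_char_pow, add_pow_char_pow, sum_pow_char_pow]
    simp only [map_add, map_sum, map_mul, map_pow, eval_C, eval_X, mul_pow, Matrix.cons_val_zero,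
      Matrix.cons_val_one]
    congr 2
    exact Finset.sum_congr rfl fun i hi => by rw [g2 i hi s hs]

omit [Fintype F] [CharP F 2] in
theorem binet (w' w p s : Fin 3 → F) :
    dt (cr w' w) (cr p s) = dt w' p * dt w s - dt w' s * dt w p := by
  simp [dt]; ring

omit [Fintype F] [CharP F 2] in
theorem eval_aeval' (P : Fin 3 → F) (g : Fin 3 → MvPolynomial (Fin 3) F)
    (G : MvPolynomial (Fin 3) F) : eval P (aeval g G) = eval (fun i => eval P (g i)) G := by
  induction G using MvPolynomial.induction_on with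
  | C a => simp
  | add p q hp hq => rw [map_add, map_add, map_add, hp, hq]
  | mul_X p i hp => rw [map_mul, map_mul, map_mul, hp, aeval_X, eval_X]

theorem main_bound (h : ℕ) (h1 : 1 ≤ h) (hq : Fintype.card F = 2 * 2 ^ h)
    (hk : Module.finrank F C₀ = k)
    (hC : ∀ A : Finset (Fin n), A.card = k → ∀ x ∈ C₀, (∀ i ∈ A, x i = 0) → x = 0)
    (h3 : 3 ≤ k) (hkn : 2 * k ≤ n + 3) (hlo : 2 ^ h + k ≤ n + 1) (hhi : n + 2 ≤ 2 * 2 ^ h + k) :
    n ≤ 2 * 2 ^ h + 1 := by
  have hQ : 1 ≤ 2 ^ h := Nat.one_le_two_pow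
  obtain ⟨B, -, hB⟩ := Finset.exists_subset_card_eq (s := (Finset.univ : Finset (Fin n)))
    (n := k - 3) (by simp; omega)
  have hT : Bᶜ.card = n - (k - 3) := by rw [Finset.card_compl, Fintype.card_fin, hB]
  obtain ⟨t₀, t₁, t₂, m0, m1, m2, n01, n02, n12⟩ := (Finset.two_lt_card_iff (s := Bᶜ)).1 (by omega)
  rw [Finset.mem_compl] at m0 m1 m2
  let A := insert t₀ (insert t₁ (insert t₂ B))
  have hA : A.card = k := by
    rw [Finset.card_insert_of_notMem (by simp [n01, n02, m0]),
      Finset.card_insert_of_notMem (by simp [n12, m1]), Finset.card_insert_of_notMem m2]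
    omega
  choose e he1 he2 using fun j : Fin n => Upper.surj C₀ hk hC A hA (Pi.single j 1)
  have a0 : t₀ ∈ A := by simp [A]
  have a1 : t₁ ∈ A := by simp [A]
  have a2 : t₂ ∈ A := by simp [A]
  have zB : ∀ t, t ∉ B → ∀ i ∈ B, e t i = 0 := fun t ht i hi => by
    rw [he2 _ i (by simp [A, hi]), Pi.single_eq_of_ne (fun hh : i = t => ht (hh ▸ hi))]
  let c : Fin 3 → Fin n → F := ![e t₀, e t₁, e t₂]
  have hc : ∀ j, c j ∈ C₀ := fun j => by fin_cases j <;> exact he1 _
  have harc := arc_of_words hC (B := B) (by omega) (by omega) c hc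
    (fun j => by
      fin_cases j
      · exact zB _ m0
      · exact zB _ m1
      · exact zB _ m2)
    (fun w hw => by
      have e0 := hw t₀
      have e1 := hw t₁
      have e2 := hw t₂
      simp [dt, c, he2 _ _ a0, he2 _ _ a1, he2 _ _ a2, n01, n02, n12, n01.symm, n02.symm,
        n12.symm] at e0 e1 e2
      funext j
      fin_cases j <;> simp [e0, e1, e2])
  set v : Fin n → Fin 3 → F := fun s j => c j s with hv
  have hspan : ∀ y ∈ C₀, (∀ i ∈ B, y i = 0) → ∃ w, ∀ s, y s = dt w (v s) := by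
    intro y hy hyB
    have : y - (y t₀ • e t₀ + y t₁ • e t₁ + y t₂ • e t₂) = 0 := by
      apply hC A hA
      · exact C₀.sub_mem hy (C₀.add_mem (C₀.add_mem (C₀.smul_mem _ (he1 _))
          (C₀.smul_mem _ (he1 _))) (C₀.smul_mem _ (he1 _)))
      · intro l hl
        simp only [Pi.sub_apply, Pi.add_apply, Pi.smul_apply, smul_eq_mul, he2 _ l hl,
          Pi.single_apply]
        simp only [A, Finset.mem_insert] at hl
        rcases hl with rfl | rfl | rfl | hl
        · simp [n01, n02]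
        · simp [n01.symm, n12]
        · simp [n02.symm, n12.symm]
        · have q0 : l ≠ t₀ := fun hh => m0 (hh ▸ hl)
          have q1 : l ≠ t₁ := fun hh => m1 (hh ▸ hl)
          have q2 : l ≠ t₂ := fun hh => m2 (hh ▸ hl)
          simp [q0, q1, q2, hyB l hl]
    refine ⟨![y t₀, y t₁, y t₂], fun s => ?_⟩
    have e0 := congrFun (sub_eq_zero.1 this) s
    simpa [dt, hv, c] using e0
  have hgood : ∀ x ∈ C₀, Good (2 ^ h) v Bᶜ (fun s => x s ^ 2 ^ h) := by
    intro x hx p hp
    have hp' := Finset.mem_compl.1 hp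
    have hc0 : (insert p B).card = k - 3 + 1 := by rw [Finset.card_insert_of_notMem hp', hB]
    obtain ⟨s₁, q1, s₂, q2, q12⟩ := (Finset.one_lt_card (s := (insert p B)ᶜ)).1 (by
      rw [Finset.card_compl, Fintype.card_fin, hc0]; omega)
    obtain ⟨a, ha, b, hb, za, zb, hG⟩ := pencil h h1 hq hk hC (by omega) (A₀ := insert p B)
      (by omega) (Finset.mem_compl.1 q1) (Finset.mem_compl.1 q2) q12
    obtain ⟨G, g1, g2⟩ := hG x hx
    obtain ⟨wa, hwa⟩ := hspan a ha fun i hi => za i (Finset.mem_insert_of_mem hi)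
    obtain ⟨wb, hwb⟩ := hspan b hb fun i hi => zb i (Finset.mem_insert_of_mem hi)
    obtain ⟨w', hw'⟩ := exists_dt_one (harc.one p hp)
    have pa : dt wa (v p) = 0 := by rw [← hwa, za p (Finset.mem_insert_self _ _)]
    have pb : dt wb (v p) = 0 := by rw [← hwb, zb p (Finset.mem_insert_self _ _)]
    refine ⟨aeval ![lin (cr w' wb), lin (cr w' wa), 0] G, ?_, ?_⟩
    · have := g1.aeval ![lin (cr w' wb), lin (cr w' wa), 0] (n := 1) (fun j => by
        fin_cases j
        · exact lin_hom _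
        · exact lin_hom _
        · exact isHomogeneous_zero _ _ _)
      rwa [one_mul] at this
    · intro s hs hsp
      show _ = x s ^ 2 ^ h
      rw [eval_aeval', ← g2 s (by simp [hsp, Finset.mem_compl.1 hs])]
      congr 2
      funext j
      fin_cases j
      · simp [binet, hw', pb, hwb]
      · simp [binet, hw', pa, hwa]
      · simp
  obtain ⟨D, hDT, hD⟩ := Finset.exists_subset_card_eq (s := Bᶜ) (n := k) (by omega)
  choose f hf1 hf2 using fun j : Fin n => Upper.surj C₀ hk hC D hD (Pi.single j 1)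
  let Φ : (D → F) →ₗ[F] (Fin n → F) :=
    Fintype.linearCombination F fun j s => f j.1 s ^ 2 ^ h
  have key := stepC h harc (by omega) (by omega)
    (fun w => by
      have := hgood (w 0 • c 0 + w 1 • c 1 + w 2 • c 2)
        (C₀.add_mem (C₀.add_mem (C₀.smul_mem _ (hc 0)) (C₀.smul_mem _ (hc 1)))
          (C₀.smul_mem _ (hc 2)))
      exact this) Φ
    (fun y p hp => by
      choose E hE1 hE2 using fun j : D => hgood (f j.1) (hf1 _) p hp
      refine ⟨∑ j, C (y j) * E j, IsHomogeneous.sum _ _ _ fun j _ => (hE1 j).C_mul _, ?_⟩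
      intro s hs hsp
      simp only [Φ, Fintype.linearCombination_apply, map_sum, map_mul, eval_C, Finset.sum_apply,
        Pi.smul_apply, smul_eq_mul]
      exact Finset.sum_congr rfl fun j _ => by rw [hE2 j s hs hsp])
    (fun y hy => by
      funext l
      have e0 := hy l.1 (hDT l.2)
      simp only [Φ, Fintype.linearCombination_apply, Finset.sum_apply, Pi.smul_apply,
        smul_eq_mul, hf2 _ l.1 l.2] at e0
      rw [Finset.sum_eq_single l] at e0
      · simpa using e0
      · intro j _ hj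
        rw [Pi.single_eq_of_ne (fun hh => hj (Subtype.ext hh).symm), zero_pow (by omega), mul_zero]
      · simp)
  rw [Module.finrank_fintype_fun_eq_card, Fintype.card_coe, hD] at key
  omega

omit [CharP F 2] in
theorem core (hF : Even (Fintype.card F)) (k : ℕ) (h4 : 4 ≤ k)
    (hk : 2 * k ≤ Fintype.card F + 2) : ¬ MDS F (Fintype.card F + 2) k := by
  rintro ⟨C₀, hC1, hC2⟩
  have hc : ringChar F = 2 := FiniteField.even_card_iff_char_two.2 (Nat.even_iff.1 hF)
  have : CharP F 2 := hc ▸ ringChar.charP F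
  obtain ⟨m, -, hm⟩ := FiniteField.card F 2
  obtain ⟨h, hh⟩ : ∃ h, (m : ℕ) = h + 1 := ⟨m - 1, by have := m.pos; omega⟩
  rw [hh, pow_succ, mul_comm] at hm
  have h1 : 1 ≤ h := by
    by_contra h0
    have : h = 0 := by omega
    subst this
    omega
  have := main_bound h h1 hm hC1 hC2 (by omega) (by omega) (by omega) (by omega)
  omega

end Pool.Agent.Lib.MP_deca50_lc.Even
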