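import Mathlib

/-! Linear MDS codes in information-set form. -/

namespace Pool.Agent.Lib.MP_deca50_lc.Even

/-- There is a linear code of length `n` and dimension `k` over `F` in which a word that
vanishes on `k` coordinates is zero. -/
def MDS (F : Type) [Field F] (n k : ℕ) : Prop :=
  ∃ C : Submodule F (Fin n → F), Module.finrank F C = k ∧
    ∀ A : Finset (Fin n), A.card = k → ∀ x ∈ C, (∀ i ∈ A, x i = 0) → x = 0

end Pool.Agent.Lib.MP_deca50_lc.Even
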