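import Pool.Agent.Lib.MP_deca50_lc.Even.Defs

namespace Pool.Agent.Lib.MP_deca50_lc.Even

variable {F : Type} [Field F]

open Polynomial

/-- A family of linear forms on a space of dimension `k`, any `k` of which have trivial
common kernel, gives an MDS code. -/
theorem MDS_of_forms {n k : ℕ} {ι W : Type} [AddCommGroup W] [Module F W]
    (hW : Module.finrank F W = k) (hk : k ≤ n) (f : Fin n ↪ ι) (ev : ι → W →ₗ[F] F)
    (h : ∀ A : Finset ι, A.card = k → ∀ w, (∀ i ∈ A, ev i w = 0) → w = 0) : MDS F n k := by
  classical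
  let φ : W →ₗ[F] (Fin n → F) := LinearMap.pi fun i => ev (f i)
  have hA : ∀ A : Finset (Fin n), A.card = k → ∀ w, (∀ i ∈ A, φ w i = 0) → w = 0 := by
    intro A hA w hw
    refine h (A.map f) (by simpa using hA) w ?_
    intro i hi
    obtain ⟨j, hj, rfl⟩ := Finset.mem_map.1 hi
    exact hw j hj
  have hinj : Function.Injective φ := by
    rw [← LinearMap.ker_eq_bot, LinearMap.ker_eq_bot']
    intro w hw
    obtain ⟨A, -, hAc⟩ := Finset.exists_subset_card_eq (s := (Finset.univ : Finset (Fin n)))
      (n := k) (by simpa using hk)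
    exact hA A hAc w fun i _ => by simp [hw]
  refine ⟨LinearMap.range φ, ?_, ?_⟩
  · rw [LinearMap.finrank_range_of_inj hinj, hW]
  · rintro A hAc x ⟨w, rfl⟩ hx
    rw [hA A hAc w hx, map_zero]

theorem MDS_one {n : ℕ} (hn : 1 ≤ n) : MDS F n 1 := by
  refine MDS_of_forms (W := F) (Module.finrank_self F) hn (Function.Embedding.refl _)
    (fun _ => LinearMap.id) ?_
  intro A hA w hw
  obtain ⟨i, hi⟩ : A.Nonempty := Finset.card_pos.1 (by omega)
  simpa using hw i hi

theorem MDS_self (n : ℕ) : MDS F n n := by
  refine ⟨⊤, by simp, ?_⟩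
  intro A hA x _ hx
  have : A = Finset.univ := Finset.eq_univ_of_card A (by simpa using hA)
  funext i
  exact hx i (this ▸ Finset.mem_univ i)

theorem finrank_degreeLT' (k : ℕ) : Module.finrank F (degreeLT F k) = k := by
  rw [(degreeLTEquiv F k).finrank_eq]
  simp

/-- evaluation at a point of the projective line -/
noncomputable def evO (k : ℕ) : Option F → degreeLT F k →ₗ[F] F
  | none => (lcoeff F (k - 1)).comp (degreeLT F k).subtype
  | some a => (leval a).comp (degreeLT F k).subtype

theorem zero_of_roots {p : F[X]} {m : ℕ} (hp : p.degree < m) (B : Finset F) (hB : m ≤ B.card)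
    (h : ∀ a ∈ B, p.eval a = 0) : p = 0 :=
  eq_zero_of_degree_lt_of_eval_finset_eq_zero B (lt_of_lt_of_le hp (by exact_mod_cast hB)) h

theorem degree_lt_pred {p : F[X]} {k : ℕ} (hp : p.degree < k) (h : p.coeff (k - 1) = 0) :
    p.degree < (k - 1 : ℕ) := by
  rw [degree_lt_iff_coeff_zero] at hp ⊢
  intro m hm
  rcases Nat.lt_or_ge m k with h1 | h1
  · have : m = k - 1 := by omega
    rw [this, h]
  · exact hp m h1

theorem evO_zero {k : ℕ} (A : Finset (Option F)) (hA : A.card = k) (w : degreeLT F k)
    (hw : ∀ i ∈ A, evO k i w = 0) : w = 0 := by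
  classical
  have hdeg : (w : F[X]).degree < k := mem_degreeLT.1 w.2
  have hroot : ∀ a ∈ A.eraseNone, (w : F[X]).eval a = 0 := by
    intro a ha
    have := hw (some a) (Finset.mem_eraseNone.1 ha)
    simpa [evO] using this
  apply Subtype.ext
  by_cases hn : none ∈ A
  · have h0 : (w : F[X]).coeff (k - 1) = 0 := by simpa [evO] using hw none hn
    refine zero_of_roots (degree_lt_pred hdeg h0) _ ?_ hroot
    rw [Finset.card_eraseNone_of_mem hn, hA]
  · refine zero_of_roots hdeg _ ?_ hroot
    rw [Finset.card_eraseNone_of_not_mem hn, hA]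

/-- doubly extended Reed-Solomon codes -/
theorem MDS_rs [Fintype F] {n k : ℕ} (hk : 1 ≤ k) (hkn : k ≤ n) (hn : n ≤ Fintype.card F + 1) :
    MDS F n k := by
  obtain ⟨f⟩ : Nonempty (Fin n ↪ Option F) :=
    Function.Embedding.nonempty_of_card_le (by simpa using hn)
  exact MDS_of_forms (finrank_degreeLT' k) hkn f (evO k) fun A hA w hw => evO_zero A hA w hw

/-- conic plus nucleus -/
noncomputable def evH : Option (Option F) → degreeLT F 3 →ₗ[F] F
  | none => (lcoeff F 1).comp (degreeLT F 3).subtype
  | some a => evO 3 a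

/-- conic plus nucleus -/
theorem MDS_hyperoval [Fintype F] (hF : Even (Fintype.card F)) :
    MDS F (Fintype.card F + 2) 3 := by
  classical
  have h2 : (2 : F) = 0 := by
    have hc : ringChar F = 2 := FiniteField.even_card_iff_char_two.2 (Nat.even_iff.1 hF)
    have := ringChar.spec F 2
    rw [hc] at this
    exact_mod_cast this.2 dvd_rfl
  obtain ⟨f⟩ : Nonempty (Fin (Fintype.card F + 2) ↪ Option (Option F)) :=
    Function.Embedding.nonempty_of_card_le (by simp)
  have hq : 1 < Fintype.card F := Fintype.one_lt_card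
  refine MDS_of_forms (finrank_degreeLT' 3) (by omega) f evH ?_
  intro A hA w hw
  have hw' : ∀ i ∈ A.eraseNone, evO 3 i w = 0 := fun i hi =>
    hw (some i) (Finset.mem_eraseNone.1 hi)
  by_cases hn : none ∈ A
  · have h1 : (w : F[X]).coeff 1 = 0 := by simpa [evH] using hw none hn
    have hc : A.eraseNone.card = 2 := by rw [Finset.card_eraseNone_of_mem hn, hA]
    have hdeg : (w : F[X]).degree < (3 : ℕ) := mem_degreeLT.1 w.2
    have hev : ∀ a : F, (w : F[X]).eval a = (w : F[X]).coeff 0 + (w : F[X]).coeff 2 * a ^ 2 := by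
      intro a
      have hnd : (w : F[X]).natDegree < 3 := by
        by_cases hz : (w : F[X]) = 0
        · simp [hz]
        · exact (natDegree_lt_iff_degree_lt hz).2 hdeg
      rw [eval_eq_sum_range' hnd]
      simp [Finset.sum_range_succ, h1]
    have hfin : (w : F[X]).coeff 0 = 0 ∧ (w : F[X]).coeff 2 = 0 := by
      obtain ⟨x, y, hxy, hB⟩ := Finset.card_eq_two.1 hc
      have hx := hw' x (by simp [hB])
      have hy := hw' y (by simp [hB])
      rcases x with _ | x <;> rcases y with _ | y
      · exact absurd rfl hxy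
      · have e2 : (w : F[X]).coeff 2 = 0 := by simpa [evO] using hx
        have e0 : (w : F[X]).eval y = 0 := by simpa [evO] using hy
        rw [hev, e2] at e0
        exact ⟨by simpa using e0, e2⟩
      · have e2 : (w : F[X]).coeff 2 = 0 := by simpa [evO] using hy
        have e0 : (w : F[X]).eval x = 0 := by simpa [evO] using hx
        rw [hev, e2] at e0
        exact ⟨by simpa using e0, e2⟩
      · have ex : (w : F[X]).eval x = 0 := by simpa [evO] using hx
        have ey : (w : F[X]).eval y = 0 := by simpa [evO] using hy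
        rw [hev] at ex ey
        have hne : x - y ≠ 0 := sub_ne_zero.2 fun h => hxy (by rw [h])
        have e2 : (w : F[X]).coeff 2 * (x - y) ^ 2 = 0 := by
          linear_combination ex - ey + ((w : F[X]).coeff 2 * (y ^ 2 - x * y)) * h2
        have e2' : (w : F[X]).coeff 2 = 0 :=
          (mul_eq_zero.1 e2).resolve_right (pow_ne_zero 2 hne)
        rw [e2'] at ex
        exact ⟨by simpa using ex, e2'⟩
    apply Subtype.ext
    ext m
    rcases Nat.lt_or_ge m 3 with hm | hm
    · interval_cases m
      · simpa using hfin.1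
      · simpa using h1
      · simpa using hfin.2
    · simpa using (degree_lt_iff_coeff_zero _ 3).1 hdeg m hm
  · exact evO_zero A.eraseNone (by rw [Finset.card_eraseNone_of_not_mem hn, hA]) w hw'

theorem card_agree [DecidableEq F] {n : ℕ} (x y : Fin n → F) :
    (Finset.univ.filter fun i => x i = y i).card + hammingDist x y = n := by
  have := Finset.card_filter_add_card_filter_not (s := (Finset.univ : Finset (Fin n)))
    (fun i => x i = y i)
  simpa [hammingDist] using this

/-- information-set form versus minimum weight and number of words -/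
theorem MDS_iff [Fintype F] [DecidableEq F] {n d : ℕ} (hd : 1 ≤ d) (hdn : d ≤ n) :
    (∃ C : Submodule F (Fin n → F), Nat.card C = Fintype.card F ^ (n - d + 1) ∧
      IsLeast {w : ℕ | ∃ x ∈ C, ∃ y ∈ C, x ≠ y ∧ hammingDist x y = w} d) ↔
    MDS F n (n - d + 1) := by
  classical
  have hq : 1 < Fintype.card F := Fintype.one_lt_card
  have hcard : ∀ C : Submodule F (Fin n → F),
      Nat.card C = Fintype.card F ^ Module.finrank F C := by
    intro C
    rw [Module.natCard_eq_pow_finrank (K := F), Nat.card_eq_fintype_card]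
  constructor
  · rintro ⟨C, hC, -, hlow⟩
    refine ⟨C, ?_, ?_⟩
    · rw [hcard] at hC
      exact Nat.pow_right_injective hq hC
    · intro A hA x hx hxA
      by_contra hne
      have h1 : d ≤ hammingDist x 0 := hlow ⟨x, hx, 0, C.zero_mem, hne, rfl⟩
      have h2 := card_agree x 0
      have h3 : A.card ≤ (Finset.univ.filter fun i => x i = (0 : Fin n → F) i).card :=
        Finset.card_le_card fun i hi => by simpa using hxA i hi
      omega
  · rintro ⟨C, hC, hA⟩
    have hlow : ∀ x ∈ C, ∀ y ∈ C, x ≠ y → d ≤ hammingDist x y := by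
      intro x hx y hy hxy
      by_contra hlt
      have h2 := card_agree x y
      obtain ⟨A, hAs, hAc⟩ := Finset.exists_subset_card_eq
        (s := Finset.univ.filter fun i => x i = y i) (n := n - d + 1) (by omega)
      refine hxy (sub_eq_zero.1 (hA A hAc (x - y) (C.sub_mem hx hy) ?_))
      intro i hi
      have := (Finset.mem_filter.1 (hAs hi)).2
      simp [this]
    refine ⟨C, by rw [hcard, hC], ?_, ?_⟩
    · obtain ⟨B, -, hB⟩ := Finset.exists_subset_card_eq (s := (Finset.univ : Finset (Fin n)))
        (n := n - d) (by simp)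
      let ψ : C →ₗ[F] (B → F) := LinearMap.pi fun i => (LinearMap.proj (i : Fin n)).comp C.subtype
      have hker : LinearMap.ker ψ ≠ ⊥ := by
        apply LinearMap.ker_ne_bot_of_finrank_lt
        simp [hC, hB]
      obtain ⟨x, hx, hx0⟩ := Submodule.exists_mem_ne_zero_of_ne_bot hker
      have hxne : (x : Fin n → F) ≠ 0 := fun h => hx0 (Subtype.ext h)
      refine ⟨x, x.2, 0, C.zero_mem, hxne, ?_⟩
      have h1 := hlow x x.2 0 C.zero_mem hxne
      have h2 := card_agree (x : Fin n → F) 0
      have h3 : B.card ≤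
          (Finset.univ.filter fun i => (x : Fin n → F) i = (0 : Fin n → F) i).card := by
        refine Finset.card_le_card fun i hi => ?_
        have := congrFun (LinearMap.mem_ker.1 hx) ⟨i, hi⟩
        simpa [ψ] using this
      omega
    · rintro w ⟨x, hx, y, hy, hxy, rfl⟩
      exact hlow x hx y hy hxy

end Pool.Agent.Lib.MP_deca50_lc.Even
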