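import Mathlib

/-! Ternary forms and line arrangements: division at a point, along a line, gluing. -/

namespace Pool.Agent.Lib.MP_deca50_lc.Even

open MvPolynomial

variable {F : Type} [Field F]

/-- cross product -/
def cr (p s : Fin 3 → F) : Fin 3 → F :=
  ![p 1 * s 2 - p 2 * s 1, p 2 * s 0 - p 0 * s 2, p 0 * s 1 - p 1 * s 0]

/-- dot product -/
def dt (p s : Fin 3 → F) : F := p 0 * s 0 + p 1 * s 1 + p 2 * s 2

@[simp] theorem cr0 (p s : Fin 3 → F) : cr p s 0 = p 1 * s 2 - p 2 * s 1 := rfl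
@[simp] theorem cr1 (p s : Fin 3 → F) : cr p s 1 = p 2 * s 0 - p 0 * s 2 := rfl
@[simp] theorem cr2 (p s : Fin 3 → F) : cr p s 2 = p 0 * s 1 - p 1 * s 0 := rfl

/-- the linear form with coefficient vector `p` -/
noncomputable def lin (p : Fin 3 → F) : MvPolynomial (Fin 3) F :=
  C (p 0) * X 0 + C (p 1) * X 1 + C (p 2) * X 2

theorem lin_hom (p : Fin 3 → F) : (lin p).IsHomogeneous 1 :=
  ((isHomogeneous_C_mul_X _ _).add (isHomogeneous_C_mul_X _ _)).add (isHomogeneous_C_mul_X _ _)

@[simp] theorem eval_lin (p P : Fin 3 → F) : eval P (lin p) = dt p P := by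
  simp [lin, dt]

theorem dt_cr_left (p s : Fin 3 → F) : dt p (cr p s) = 0 := by simp [dt]; ring
theorem dt_cr_right (p s : Fin 3 → F) : dt s (cr p s) = 0 := by simp [dt]; ring

theorem exists_dt_one {P : Fin 3 → F} (hP : P ≠ 0) : ∃ w, dt w P = 1 := by
  by_cases h0 : P 0 = 0
  · by_cases h1 : P 1 = 0
    · have h2 : P 2 ≠ 0 := by
        intro h2; apply hP; funext i; fin_cases i <;> simp [h0, h1, h2]
      exact ⟨![0, 0, (P 2)⁻¹], by simp [dt, h2]⟩
    · exact ⟨![0, (P 1)⁻¹, 0], by simp [dt, h1]⟩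
  · exact ⟨![(P 0)⁻¹, 0, 0], by simp [dt, h0]⟩

theorem lin_ne_zero {p : Fin 3 → F} (hp : p ≠ 0) : lin p ≠ 0 := by
  intro h
  obtain ⟨w, hw⟩ := exists_dt_one hp
  have h1 := congrArg (eval w) h
  rw [eval_lin, map_zero] at h1
  have : dt w p = dt p w := by simp [dt]; ring
  rw [this, h1] at hw
  exact zero_ne_one hw

theorem lin_prime {p : Fin 3 → F} (hp : p ≠ 0) : Prime (lin p) := by
  apply Irreducible.prime
  apply irreducible_of_totalDegree_eq_one ((lin_hom p).totalDegree (lin_ne_zero hp))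
  intro x hx
  rw [isUnit_iff_ne_zero]
  rintro rfl
  apply lin_ne_zero hp
  ext i
  simpa using hx i

theorem comp_lin_mul (p : Fin 3 → F) (d : ℕ) (A : MvPolynomial (Fin 3) F) :
    homogeneousComponent (d + 1) (lin p * A) = lin p * homogeneousComponent d A := by
  induction A using MvPolynomial.induction_on' with
  | monomial m a =>
    have h1 : (monomial m a : MvPolynomial (Fin 3) F).IsHomogeneous m.degree :=
      isHomogeneous_monomial a rfl
    have h2 := (lin_hom p).mul h1
    rw [homogeneousComponent_of_mem h2, homogeneousComponent_of_mem h1]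
    by_cases h : d = m.degree
    · rw [if_pos h, if_pos (by omega)]
    · rw [if_neg h, if_neg (by omega), mul_zero]
  | add A B hA hB => rw [mul_add, map_add, map_add, hA, hB, mul_add]

theorem eq_zero_of_hom_zero {H : MvPolynomial (Fin 3) F} (hH : H.IsHomogeneous 0)
    {P : Fin 3 → F} (h0 : eval P H = 0) : H = 0 := by
  have h1 : H.totalDegree = 0 := (totalDegree_zero_iff_isHomogeneous _).2 hH
  rw [totalDegree_eq_zero_iff_eq_C] at h1
  rw [h1] at h0 ⊢
  simp only [eval_C] at h0
  rw [h0, map_zero]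

theorem hom_of_lin_mul {p : Fin 3 → F} (hp : p ≠ 0) {d : ℕ} {A : MvPolynomial (Fin 3) F}
    (h : (lin p * A).IsHomogeneous (d + 1)) : A.IsHomogeneous d := by
  have h1 := comp_lin_mul p d A
  rw [homogeneousComponent_of_mem h, if_pos rfl] at h1
  rw [mul_left_cancel₀ (lin_ne_zero hp) h1]
  exact homogeneousComponent_isHomogeneous _ _

theorem eq_zero_of_lin_mul {p : Fin 3 → F} (hp : p ≠ 0) {A : MvPolynomial (Fin 3) F}
    (h : (lin p * A).IsHomogeneous 0) : A = 0 := by
  have h1 : lin p * A = 0 := eq_zero_of_hom_zero h (P := 0) (by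
    rw [map_mul, eval_lin]; simp [dt])
  exact (mul_eq_zero.1 h1).resolve_left (lin_ne_zero hp)

theorem aeval_scale {H : MvPolynomial (Fin 3) F} {d : ℕ} (hH : H.IsHomogeneous d)
    (P : Fin 3 → F) (L : MvPolynomial (Fin 3) F) :
    aeval (fun i => C (P i) * L) H = C (eval P H) * L ^ d := by
  conv_lhs => rw [H.as_sum]
  conv_rhs => rw [H.as_sum]
  rw [map_sum, map_sum, map_sum, Finset.sum_mul]
  apply Finset.sum_congr rfl
  intro m hm
  have hd : m 0 + m 1 + m 2 = d := by
    have := hH (mem_support_iff.1 hm)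
    rw [← this, Finsupp.weight_apply, Finsupp.sum_fintype _ _ (by simp)]
    simp [Fin.sum_univ_three]
  rw [aeval_monomial, eval_monomial, Finsupp.prod_fintype _ _ (by simp),
    Finsupp.prod_fintype _ _ (by simp)]
  simp only [Fin.prod_univ_three, algebraMap_eq, map_mul, map_pow, ← hd]
  ring

theorem cramer_X (p s w : Fin 3 → F) (i : Fin 3) :
    C (dt w (cr p s)) * (X i : MvPolynomial (Fin 3) F) =
      C (cr p s i) * lin w + C (cr w p i) * lin s + C (cr s w i) * lin p := by
  fin_cases i <;> simp [dt, lin] <;> ring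

/-- A form vanishing at the meet of two lines lies in the ideal of the two lines. -/
theorem point_div {p s : Fin 3 → F} (hP : cr p s ≠ 0) {d : ℕ} {H : MvPolynomial (Fin 3) F}
    (hH : H.IsHomogeneous (d + 1)) (h0 : eval (cr p s) H = 0) :
    ∃ A B : MvPolynomial (Fin 3) F, A.IsHomogeneous d ∧ B.IsHomogeneous d ∧
      H = lin s * A + lin p * B := by
  obtain ⟨w, hw⟩ := exists_dt_one hP
  let I : Ideal (MvPolynomial (Fin 3) F) := Ideal.span {lin s, lin p}
  have hs : lin s ∈ I := Ideal.subset_span (by simp)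
  have hp : lin p ∈ I := Ideal.subset_span (by simp)
  have key : (Ideal.Quotient.mkₐ F I) =
      (Ideal.Quotient.mkₐ F I).comp (aeval (fun i => C (cr p s i) * lin w)) := by
    apply MvPolynomial.algHom_ext
    intro i
    rw [AlgHom.comp_apply, aeval_X]
    apply Ideal.Quotient.eq.2
    have h1 := cramer_X p s w i
    rw [hw, map_one, one_mul] at h1
    have h2 : X i - C (cr p s i) * lin w = C (cr w p i) * lin s + C (cr s w i) * lin p := by
      rw [h1]; ring
    rw [h2]
    exact I.add_mem (I.mul_mem_left _ hs) (I.mul_mem_left _ hp)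
  have h3 : Ideal.Quotient.mkₐ F I H = 0 := by
    rw [key, AlgHom.comp_apply, aeval_scale hH, h0]; simp
  have h4 : H ∈ I := Ideal.Quotient.eq_zero_iff_mem.1 h3
  obtain ⟨A, B, hAB⟩ := Ideal.mem_span_pair.1 h4
  refine ⟨homogeneousComponent d A, homogeneousComponent d B,
    homogeneousComponent_isHomogeneous _ _, homogeneousComponent_isHomogeneous _ _, ?_⟩
  rw [← comp_lin_mul, ← comp_lin_mul, ← map_add, mul_comm (lin s), mul_comm (lin p), hAB,
    homogeneousComponent_of_mem hH, if_pos rfl]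

theorem eval_eq_zero_of_dvd {p P : Fin 3 → F} {H : MvPolynomial (Fin 3) F} (h : lin p ∣ H)
    (hP : dt p P = 0) : eval P H = 0 := by
  obtain ⟨A, rfl⟩ := h
  rw [map_mul, eval_lin, hP, zero_mul]

theorem eval_eq_of_dvd {p P : Fin 3 → F} {G H : MvPolynomial (Fin 3) F} (h : lin p ∣ G - H)
    (hP : dt p P = 0) : eval P G = eval P H := by
  have := eval_eq_zero_of_dvd h hP
  rwa [map_sub, sub_eq_zero] at this

variable {ι : Type} [DecidableEq ι]

/-- A form vanishing at the points cut on the line `p` by the lines of `T`. -/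
theorem multi_div (v : ι → Fin 3 → F) (p : Fin 3 → F) (T : Finset ι) :
    (∀ s ∈ T, cr p (v s) ≠ 0) →
    (∀ s ∈ T, ∀ s' ∈ T, s ≠ s' → dt (v s') (cr p (v s)) ≠ 0) →
    ∀ (d : ℕ) (H : MvPolynomial (Fin 3) F), H.IsHomogeneous d →
      (∀ s ∈ T, eval (cr p (v s)) H = 0) →
      ∃ A, ((∏ s ∈ T, lin (v s)) * A).IsHomogeneous d ∧
        lin p ∣ H - (∏ s ∈ T, lin (v s)) * A ∧ (d < T.card → A = 0) := by
  induction T using Finset.induction_on with
  | empty =>
    intro _ _ d H hH _
    exact ⟨H, by simpa using hH, by simp, by simp⟩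
  | insert a T ha ih =>
    intro h2 h3 d H hH h0
    cases d with
    | zero =>
      have : H = 0 := eq_zero_of_hom_zero hH (h0 a (Finset.mem_insert_self _ _))
      exact ⟨0, by simpa using isHomogeneous_zero _ _ _, by simp [this], fun _ => rfl⟩
    | succ d =>
      obtain ⟨A₁, B₁, hA₁, hB₁, hE⟩ :=
        point_div (h2 a (Finset.mem_insert_self _ _)) hH (h0 a (Finset.mem_insert_self _ _))
      have hv : ∀ s ∈ T, eval (cr p (v s)) A₁ = 0 := by
        intro s hs
        have h4 := h0 s (Finset.mem_insert_of_mem hs)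
        rw [hE, map_add, map_mul, map_mul, eval_lin, eval_lin, dt_cr_left, zero_mul,
          add_zero] at h4
        exact (mul_eq_zero.1 h4).resolve_left
          (h3 s (Finset.mem_insert_of_mem hs) a (Finset.mem_insert_self _ _)
            (by rintro rfl; exact ha hs))
      obtain ⟨A, hA, hD, hZ⟩ := ih (fun s hs => h2 s (Finset.mem_insert_of_mem hs))
        (fun s hs s' hs' => h3 s (Finset.mem_insert_of_mem hs) s' (Finset.mem_insert_of_mem hs'))
        d A₁ hA₁ hv
      refine ⟨A, ?_, ?_, ?_⟩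
      · rw [Finset.prod_insert ha, mul_assoc, add_comm d 1]
        exact (lin_hom _).mul hA
      · rw [Finset.prod_insert ha, hE]
        obtain ⟨B, hB⟩ := hD
        exact ⟨lin (v a) * B + B₁, by linear_combination (lin (v a)) * hB⟩
      · intro hd
        rw [Finset.card_insert_of_notMem ha] at hd
        exact hZ (by omega)

theorem dvd_of_many_zeros (v : ι → Fin 3 → F) (p : Fin 3 → F) (T : Finset ι)
    (h2 : ∀ s ∈ T, cr p (v s) ≠ 0)
    (h3 : ∀ s ∈ T, ∀ s' ∈ T, s ≠ s' → dt (v s') (cr p (v s)) ≠ 0)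
    {d : ℕ} {H : MvPolynomial (Fin 3) F} (hH : H.IsHomogeneous d) (hd : d < T.card)
    (h0 : ∀ s ∈ T, eval (cr p (v s)) H = 0) : lin p ∣ H := by
  obtain ⟨A, -, hD, hZ⟩ := multi_div v p T h2 h3 d H hH h0
  simpa [hZ hd] using hD

/-- lines in general position -/
structure Arc (v : ι → Fin 3 → F) (T : Finset ι) : Prop where
  one : ∀ a ∈ T, v a ≠ 0
  two : ∀ a ∈ T, ∀ b ∈ T, a ≠ b → cr (v a) (v b) ≠ 0
  three : ∀ a ∈ T, ∀ b ∈ T, ∀ c ∈ T, a ≠ b → a ≠ c → b ≠ c → dt (v c) (cr (v a) (v b)) ≠ 0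

omit [DecidableEq ι] in
theorem Arc.mono {v : ι → Fin 3 → F} {T T' : Finset ι} (h : Arc v T) (hT : T' ⊆ T) : Arc v T' :=
  ⟨fun a ha => h.one a (hT ha), fun a ha b hb => h.two a (hT ha) b (hT hb),
    fun a ha b hb c hc => h.three a (hT ha) b (hT hb) c (hT hc)⟩

theorem Arc.dvd_of_nodes {v : ι → Fin 3 → F} {T T' : Finset ι} (h : Arc v T) {p : ι} (hp : p ∈ T)
    (hT : T' ⊆ T.erase p) {d : ℕ} {H : MvPolynomial (Fin 3) F} (hH : H.IsHomogeneous d)
    (hd : d < T'.card) (h0 : ∀ s ∈ T', eval (cr (v p) (v s)) H = 0) : lin (v p) ∣ H := by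
  refine dvd_of_many_zeros v (v p) T' ?_ ?_ hH hd h0
  · intro s hs
    have := Finset.mem_erase.1 (hT hs)
    exact h.two p hp s this.2 this.1.symm
  · intro s hs s' hs' hne
    have h1 := Finset.mem_erase.1 (hT hs)
    have h2 := Finset.mem_erase.1 (hT hs')
    exact h.three p hp s h1.2 s' h2.2 h1.1.symm h2.1.symm hne

/-- Gluing of forms given on lines in general position. -/
theorem glue (v : ι → Fin 3 → F) (d : ℕ) (G : ι → MvPolynomial (Fin 3) F) (T : Finset ι) :
    Arc v T → (∀ a ∈ T, (G a).IsHomogeneous d) →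
    (∀ a ∈ T, ∀ b ∈ T, a ≠ b →
      eval (cr (v a) (v b)) (G a) = eval (cr (v a) (v b)) (G b)) →
    ∃ M : MvPolynomial (Fin 3) F, M.IsHomogeneous d ∧ ∀ a ∈ T, lin (v a) ∣ M - G a := by
  induction T using Finset.induction_on with
  | empty => intro _ _ _; exact ⟨0, isHomogeneous_zero _ _ _, by simp⟩
  | insert a T ha ih =>
    intro hA hG hc
    obtain ⟨M, hM, hD⟩ := ih (hA.mono (Finset.subset_insert _ _))
      (fun b hb => hG b (Finset.mem_insert_of_mem hb))
      (fun b hb c hc' => hc b (Finset.mem_insert_of_mem hb) c (Finset.mem_insert_of_mem hc'))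
    have hai := Finset.mem_insert_self a T
    have hne : ∀ s ∈ T, a ≠ s := fun s hs h => ha (h ▸ hs)
    obtain ⟨A, hA1, hA2, -⟩ := multi_div v (v a) T
      (fun s hs => hA.two a hai s (Finset.mem_insert_of_mem hs) (hne s hs))
      (fun s hs s' hs' h => hA.three a hai s (Finset.mem_insert_of_mem hs) s'
        (Finset.mem_insert_of_mem hs') (hne s hs) (hne s' hs') h)
      d (G a - M) ((hG a hai).sub hM) (by
        intro s hs
        rw [map_sub, hc a hai s (Finset.mem_insert_of_mem hs) (hne s hs),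
          eval_eq_of_dvd (hD s hs) (dt_cr_right _ _), sub_self])
    refine ⟨M + (∏ s ∈ T, lin (v s)) * A, hM.add hA1, ?_⟩
    intro b hb
    rcases Finset.mem_insert.1 hb with rfl | hb
    · obtain ⟨B, hB⟩ := hA2
      exact ⟨-B, by linear_combination -hB⟩
    · have h1 : lin (v b) ∣ (∏ s ∈ T, lin (v s)) * A :=
        (Finset.dvd_prod_of_mem (fun s => lin (v s)) hb).mul_right _
      have h2 := (hD b hb).add h1
      convert h2 using 1
      ring

theorem not_lin_dvd_lin {p s : Fin 3 → F} (h : cr p s ≠ 0) : ¬ lin p ∣ lin s := by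
  intro hd
  apply h
  have h0 := eval_eq_zero_of_dvd hd (dt_cr_left p ![1, 0, 0])
  have h1 := eval_eq_zero_of_dvd hd (dt_cr_left p ![0, 1, 0])
  have h2 := eval_eq_zero_of_dvd hd (dt_cr_left p ![0, 0, 1])
  simp [dt] at h0 h1 h2
  funext i
  fin_cases i <;> simp
  · linear_combination -h0
  · linear_combination -h1
  · linear_combination -h2

/-- A form divisible by all the lines is divisible by their product. -/
theorem global_div (v : ι → Fin 3 → F) (d : ℕ) (G : MvPolynomial (Fin 3) F)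
    (hG : G.IsHomogeneous d) (T : Finset ι) :
    Arc v T → (∀ a ∈ T, lin (v a) ∣ G) →
    ∃ ψ : MvPolynomial (Fin 3) F, G = (∏ s ∈ T, lin (v s)) * ψ ∧
      ψ.IsHomogeneous (d - T.card) ∧ (d < T.card → ψ = 0) := by
  induction T using Finset.induction_on with
  | empty => intro _ _; exact ⟨G, by simp, by simpa using hG, by simp⟩
  | insert a T ha ih =>
    intro hA hD
    obtain ⟨ψ, h1, h2, h3⟩ := ih (hA.mono (Finset.subset_insert _ _))
      (fun b hb => hD b (Finset.mem_insert_of_mem hb))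
    have hai := Finset.mem_insert_self a T
    have hpr := lin_prime (hA.one a hai)
    have h4 := hD a hai
    rw [h1] at h4
    have h5 : lin (v a) ∣ ψ := by
      refine (hpr.dvd_or_dvd h4).resolve_left ?_
      intro h6
      obtain ⟨s, hs, h7⟩ := (hpr.dvd_finsetProd_iff _).1 h6
      exact not_lin_dvd_lin
        (hA.two a hai s (Finset.mem_insert_of_mem hs) (fun h => ha (h ▸ hs))) h7
    obtain ⟨ψ', rfl⟩ := h5
    rw [Finset.prod_insert ha, Finset.card_insert_of_notMem ha]
    by_cases hd : d < T.card + 1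
    · have h8 : ψ' = 0 := by
        have : d - T.card = 0 := by omega
        rw [this] at h2
        exact eq_zero_of_lin_mul (hA.one a hai) h2
      subst h8
      exact ⟨0, by rw [h1]; simp, isHomogeneous_zero _ _ _, fun _ => rfl⟩
    · refine ⟨ψ', by rw [h1]; ring, ?_, fun h => absurd h hd⟩
      have : d - T.card = d - (T.card + 1) + 1 := by omega
      rw [this] at h2
      exact hom_of_lin_mul (hA.one a hai) h2

/-- Coprime powers on a line. -/
theorem line_lemma {p a b : Fin 3 → F} (hp : p ≠ 0) (hpa : cr p a ≠ 0)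
    (hb : dt b (cr p a) ≠ 0) (m : ℕ) :
    ∀ (d i : ℕ) (A B : MvPolynomial (Fin 3) F), B.IsHomogeneous d → d < i →
      lin p ∣ lin a ^ i * A + lin b ^ m * B → lin p ∣ B := by
  have hz : ∀ (i : ℕ) (A B : MvPolynomial (Fin 3) F), 0 < i →
      lin p ∣ lin a ^ i * A + lin b ^ m * B → eval (cr p a) B = 0 := by
    intro i A B hi h
    have h1 := eval_eq_zero_of_dvd h (dt_cr_left p a)
    rw [map_add, map_mul, map_mul, map_pow, map_pow, eval_lin, eval_lin, dt_cr_right,
      zero_pow hi.ne', zero_mul, zero_add] at h1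
    exact (mul_eq_zero.1 h1).resolve_left (pow_ne_zero _ hb)
  intro d
  induction d with
  | zero =>
    intro i A B hB hi h
    rw [eq_zero_of_hom_zero hB (hz i A B hi h)]
    exact dvd_zero _
  | succ d ih =>
    intro i A B hB hi h
    obtain ⟨B₁, B₂, hB₁, -, hE⟩ := point_div hpa hB (hz i A B (by omega) h)
    obtain ⟨j, rfl⟩ : ∃ j, i = j + 1 := ⟨i - 1, by omega⟩
    have h1 : lin p ∣ lin a * (lin a ^ j * A + lin b ^ m * B₁) := by
      obtain ⟨D, hD⟩ := h
      rw [hE] at hD
      exact ⟨D - lin b ^ m * B₂, by linear_combination hD⟩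
    have h2 := ((lin_prime hp).dvd_or_dvd h1).resolve_left (not_lin_dvd_lin hpa)
    have h3 := ih j A B₁ hB₁ (by omega) h2
    rw [hE]
    exact (h3.mul_left _).add (dvd_mul_right _ _)

end Pool.Agent.Lib.MP_deca50_lc.Even
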