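import Pool.Agent.Lib.MP_deca50_lc.Even.Forms

/-! The algebra of ternary forms modulo the `Q`-th powers of the variables. -/

namespace Pool.Agent.Lib.MP_deca50_lc.Even

open MvPolynomial

variable {F : Type} [Field F]

/-- the socle exponent -/
noncomputable def top (Q : ℕ) : Fin 3 →₀ ℕ := Finsupp.equivFunOnFinite.symm (fun _ => Q - 1)

@[simp] theorem top_apply (Q : ℕ) (i : Fin 3) : top Q i = Q - 1 := rfl

theorem degree_three (m : Fin 3 →₀ ℕ) : m.degree = m 0 + m 1 + m 2 := by
  rw [Finsupp.degree_eq_sum, Fin.sum_univ_three]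

theorem deg_of_mem {H : MvPolynomial (Fin 3) F} {d : ℕ} (hH : H.IsHomogeneous d)
    {m : Fin 3 →₀ ℕ} (hm : coeff m H ≠ 0) : m 0 + m 1 + m 2 = d := by
  by_contra h
  exact hm (hH.coeff_eq_zero (by rwa [degree_three]))

theorem eps_ideal {Q : ℕ} (hQ : 1 ≤ Q) (M : Fin 3 → MvPolynomial (Fin 3) F)
    (g : MvPolynomial (Fin 3) F) : coeff (top Q) ((∑ i, X i ^ Q * M i) * g) = 0 := by
  rw [Finset.sum_mul, coeff_sum]
  apply Finset.sum_eq_zero
  intro i _
  rw [mul_assoc, X_pow_eq_monomial, coeff_monomial_mul', if_neg]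
  rw [Finsupp.single_le_iff, top_apply]
  omega

theorem mem_of_eps {Q D E : ℕ} (hDE : D + E = 3 * (Q - 1)) {f : MvPolynomial (Fin 3) F}
    (hf : f.IsHomogeneous D)
    (h0 : ∀ G : MvPolynomial (Fin 3) F, G.IsHomogeneous E → coeff (top Q) (f * G) = 0) :
    ∃ M : Fin 3 → MvPolynomial (Fin 3) F, (∀ i, (M i).IsHomogeneous (D - Q)) ∧
      f = ∑ i, X i ^ Q * M i := by
  rw [f.as_sum]
  apply Finset.sum_induction _ (fun g : MvPolynomial (Fin 3) F =>
    ∃ M : Fin 3 → MvPolynomial (Fin 3) F, (∀ i, (M i).IsHomogeneous (D - Q)) ∧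
      g = ∑ i, X i ^ Q * M i)
  · rintro a b ⟨M, hM, rfl⟩ ⟨M', hM', rfl⟩
    exact ⟨M + M', fun i => (hM i).add (hM' i), by
      rw [← Finset.sum_add_distrib]; simp [mul_add]⟩
  · exact ⟨0, fun i => isHomogeneous_zero _ _ _, by simp⟩
  · intro m hm
    have hm' := mem_support_iff.1 hm
    have hd := deg_of_mem hf hm'
    by_cases hle : m ≤ top Q
    · exfalso
      have h1 := h0 (monomial (top Q - m) 1) (isHomogeneous_monomial _ (by
        have a0 := hle 0
        have a1 := hle 1
        have a2 := hle 2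
        rw [top_apply] at a0 a1 a2
        rw [degree_three]
        simp only [Finsupp.coe_tsub, Pi.sub_apply, top_apply]
        omega))
      rw [coeff_mul_monomial', if_pos tsub_le_self, tsub_tsub_cancel_of_le hle, mul_one] at h1
      exact hm' h1
    · obtain ⟨i, hi⟩ : ∃ i, Q ≤ m i := by
        by_contra hc
        push Not at hc
        apply hle
        intro i
        have := hc i
        rw [top_apply]; omega
      have hs : Finsupp.single i Q ≤ m := Finsupp.single_le_iff.2 hi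
      refine ⟨Pi.single i (monomial (m - Finsupp.single i Q) (coeff m f)), ?_, ?_⟩
      · intro j
        by_cases hj : j = i
        · subst hj
          rw [Pi.single_eq_same]
          apply isHomogeneous_monomial
          have h2 : (m - Finsupp.single j Q).degree + Q = D := by
            have h3 := congrArg Finsupp.degree (tsub_add_cancel_of_le hs)
            rw [map_add, Finsupp.degree_single, degree_three m, hd] at h3
            exact h3
          omega
        · rw [Pi.single_eq_of_ne hj]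
          exact isHomogeneous_zero _ _ _
      · rw [Finset.sum_eq_single i]
        · rw [Pi.single_eq_same, X_pow_eq_monomial, monomial_mul, one_mul,
            add_tsub_cancel_of_le hs]
        · intro j _ hj
          rw [Pi.single_eq_of_ne hj, mul_zero]
        · simp

/-- Syzygies of the lowest degree are the Koszul ones. -/
theorem koszul {Q : ℕ} (hQ : 1 ≤ Q) (M : Fin 3 → MvPolynomial (Fin 3) F)
    (hM : ∀ i, (M i).IsHomogeneous Q) (h0 : ∑ i, X i ^ Q * M i = 0) :
    ∃ w : Fin 3 → F, ∀ (P : Fin 3 → F) (i : Fin 3),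
      eval P (M i) = cr w (fun j => P j ^ Q) i := by
  have hs : ∀ (i : Fin 3) (m : Fin 3 →₀ ℕ), coeff m (M i) ≠ 0 →
      ∃ j, j ≠ i ∧ m = Finsupp.single j Q := by
    intro i m hm
    have hd := deg_of_mem (hM i) hm
    obtain ⟨j, hj, hq⟩ : ∃ j, j ≠ i ∧ Q ≤ m j := by
      by_contra hc
      push Not at hc
      apply hm
      have h1 := congrArg (coeff (Finsupp.single i Q + m)) h0
      rw [coeff_sum, coeff_zero, Finset.sum_eq_single i] at h1
      · rwa [X_pow_eq_monomial, coeff_monomial_mul, one_mul] at h1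
      · intro j _ hj
        rw [X_pow_eq_monomial, coeff_monomial_mul', if_neg]
        rw [Finsupp.single_le_iff, Finsupp.add_apply, Finsupp.single_eq_of_ne hj]
        have := hc j hj
        omega
      · simp
    refine ⟨j, hj, ?_⟩
    ext l
    fin_cases j <;> fin_cases l <;> simp at hq ⊢ <;> omega
  have he : ∀ i, M i = ∑ j, monomial (Finsupp.single j Q) (coeff (Finsupp.single j Q) (M i)) := by
    intro i
    ext m
    rw [coeff_sum]
    simp only [coeff_monomial]
    by_cases hm : coeff m (M i) = 0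
    · rw [hm]
      symm
      apply Finset.sum_eq_zero
      intro j _
      split_ifs with h
      · rw [h, hm]
      · rfl
    · obtain ⟨j, -, rfl⟩ := hs i m hm
      rw [Finset.sum_eq_single j]
      · simp
      · intro l _ hl
        rw [if_neg]
        intro h
        exact hl (Finsupp.single_left_injective (by omega) h)
      · simp
  have hd : ∀ i, coeff (Finsupp.single i Q) (M i) = 0 := by
    intro i
    by_contra hc
    obtain ⟨j, hj, h⟩ := hs i _ hc
    exact hj (Finsupp.single_left_injective (by omega) h).symm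
  have hev : ∀ (P : Fin 3 → F) (i : Fin 3), eval P (M i) =
      coeff (Finsupp.single 0 Q) (M i) * P 0 ^ Q + coeff (Finsupp.single 1 Q) (M i) * P 1 ^ Q +
        coeff (Finsupp.single 2 Q) (M i) * P 2 ^ Q := by
    intro P i
    conv_lhs => rw [he i]
    rw [map_sum, Fin.sum_univ_three]
    simp [eval_monomial]
  have hQ0 : Q ≠ 0 := by omega
  have hP : ∀ P : Fin 3 → F, P 0 ^ Q * eval P (M 0) + P 1 ^ Q * eval P (M 1) +
      P 2 ^ Q * eval P (M 2) = 0 := by
    intro P
    have := congrArg (eval P) h0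
    simpa [Fin.sum_univ_three] using this
  have a01 := hP ![1, 1, 0]
  have a02 := hP ![1, 0, 1]
  have a12 := hP ![0, 1, 1]
  rw [hev, hev, hev] at a01 a02 a12
  have d0 := hd 0
  have d1 := hd 1
  have d2 := hd 2
  simp [hQ0, d0, d1, d2] at a01 a02 a12
  refine ⟨![coeff (Finsupp.single 1 Q) (M 2), coeff (Finsupp.single 2 Q) (M 0),
    coeff (Finsupp.single 0 Q) (M 1)], ?_⟩
  intro P i
  rw [hev]
  fin_cases i <;> simp [d0, d1, d2]
  · linear_combination (P 1 ^ Q) * a01
  · linear_combination (P 2 ^ Q) * a12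
  · linear_combination (P 0 ^ Q) * a02

section CharTwo

variable [CharP F 2]

theorem cr_pow (h : ℕ) (p s : Fin 3 → F) (j : Fin 3) :
    cr p s j ^ 2 ^ h = cr (fun i => p i ^ 2 ^ h) (fun i => s i ^ 2 ^ h) j := by
  fin_cases j <;> simp [sub_pow_char_pow, mul_pow]

theorem dt_pow (h : ℕ) (p s : Fin 3 → F) :
    dt p s ^ 2 ^ h = dt (fun i => p i ^ 2 ^ h) (fun i => s i ^ 2 ^ h) := by
  simp [dt, add_pow_char_pow, mul_pow]

theorem cr_comm (p s : Fin 3 → F) : cr p s = cr s p := by
  funext j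
  fin_cases j <;> simp [CharTwo.sub_eq_add] <;> ring

variable {ι : Type} [DecidableEq ι]

/-- No syzygy of degree below `Q` modulo the lines of a large arrangement. -/
theorem stepD (h : ℕ) {v : ι → Fin 3 → F} {T : Finset ι} (hA : Arc v T) (h3 : 3 ≤ T.card)
    (hN : 2 ^ h < T.card) (M : Fin 3 → MvPolynomial (Fin 3) F)
    (hM : ∀ i, (M i).IsHomogeneous (2 ^ h - 1))
    (hD : ∀ p ∈ T, lin (v p) ∣ ∑ i, X i ^ 2 ^ h * M i) : ∀ i, M i = 0 := by
  have hQ : 1 ≤ 2 ^ h := Nat.one_le_two_pow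
  let A : (Fin 3 → F) → MvPolynomial (Fin 3) F := fun r =>
    C (r 0 ^ 2 ^ h) * M 0 + C (r 1 ^ 2 ^ h) * M 1 + C (r 2 ^ 2 ^ h) * M 2
  have hAh : ∀ r, (A r).IsHomogeneous (2 ^ h - 1) := fun r =>
    (((hM 0).C_mul _).add ((hM 1).C_mul _)).add ((hM 2).C_mul _)
  have third : ∀ p ∈ T, ∀ a ∈ T, ∃ b ∈ T, p ≠ b ∧ a ≠ b := by
    intro p _ a _
    have : ¬ T ⊆ {p, a} := by
      intro hs
      have h1 := Finset.card_le_card hs
      have h2 := Finset.card_le_two (a := p) (b := a)
      omega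
    obtain ⟨b, hb, hb'⟩ := Finset.not_subset.1 this
    simp only [Finset.mem_insert, Finset.mem_singleton, not_or] at hb'
    exact ⟨b, hb, Ne.symm hb'.1, Ne.symm hb'.2⟩
  have key : ∀ p ∈ T, ∀ a ∈ T, p ≠ a → lin (v p) ∣ A (cr (v p) (v a)) := by
    intro p hp a ha hpa
    obtain ⟨b, hb, hpb, hab⟩ := third p hp a ha
    have hX : ∀ i, C (dt (v b) (cr (v p) (v a))) ^ 2 ^ h * (X i : MvPolynomial (Fin 3) F) ^ 2 ^ h =
        C (cr (v p) (v a) i ^ 2 ^ h) * lin (v b) ^ 2 ^ h +
        C (cr (v b) (v p) i ^ 2 ^ h) * lin (v a) ^ 2 ^ h +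
        C (cr (v a) (v b) i ^ 2 ^ h) * lin (v p) ^ 2 ^ h := by
      intro i
      rw [← mul_pow, cramer_X, add_pow_char_pow, add_pow_char_pow, mul_pow, mul_pow, mul_pow,
        map_pow, map_pow, map_pow]
    apply line_lemma (hA.one p hp) (hA.two p hp a ha hpa) (hA.three p hp a ha b hb hpa hpb hab)
      (2 ^ h) (2 ^ h - 1) (2 ^ h) (A (cr (v b) (v p))) _ (hAh _) (by omega)
    have h1 := (hD p hp).mul_left (C (dt (v b) (cr (v p) (v a))) ^ 2 ^ h)
    have h2 : lin (v p) ∣ lin (v p) ^ 2 ^ h * A (cr (v a) (v b)) :=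
      (dvd_pow_self _ (by omega)).mul_right _
    have h4 := h1.sub h2
    convert h4 using 1
    rw [Fin.sum_univ_three]
    simp only [A]
    linear_combination -(M 0 * hX 0 + M 1 * hX 1 + M 2 * hX 2)
  have node : ∀ p ∈ T, ∀ s ∈ T, p ≠ s → ∀ i, eval (cr (v p) (v s)) (M i) = 0 := by
    intro p hp s hs hps i
    obtain ⟨b, hb, hpb, hsb⟩ := third p hp s hs
    have e1 := eval_eq_zero_of_dvd (key p hp s hs hps) (dt_cr_left (v p) (v s))
    have e2 := eval_eq_zero_of_dvd (key s hs b hb hsb) (dt_cr_right (v p) (v s))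
    have e3 := eval_eq_zero_of_dvd (key p hp b hb hpb) (dt_cr_left (v p) (v s))
    have hΔ := pow_ne_zero (2 ^ h) (hA.three p hp s hs b hb hps hpb hsb)
    rw [dt_pow] at hΔ
    simp only [cr_pow] at hΔ
    simp only [A, map_add, map_mul, eval_C, cr_pow] at e1 e2 e3
    apply mul_left_cancel₀ hΔ
    rw [mul_zero]
    simp only [dt, cr0, cr1, cr2] at e1 e2 e3 ⊢
    fin_cases i
    · simp only [Fin.zero_eta]
      linear_combination (v b 0 ^ 2 ^ h) * e1 + (v p 0 ^ 2 ^ h) * e2 - (v s 0 ^ 2 ^ h) * e3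
    · simp only [Fin.mk_one]
      linear_combination (v b 1 ^ 2 ^ h) * e1 + (v p 1 ^ 2 ^ h) * e2 - (v s 1 ^ 2 ^ h) * e3
    · simp only [Fin.reduceFinMk]
      linear_combination (v b 2 ^ 2 ^ h) * e1 + (v p 2 ^ 2 ^ h) * e2 - (v s 2 ^ 2 ^ h) * e3
  intro i
  obtain ⟨ψ, h1, -, h2⟩ := global_div v _ (M i) (hM i) T hA (by
    intro p hp
    apply hA.dvd_of_nodes hp (Finset.Subset.refl _) (hM i)
    · rw [Finset.card_erase_of_mem hp]; omega
    · intro s hs
      have := Finset.mem_erase.1 hs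
      exact node p hp s this.2 this.1.symm i)
  rw [h1, h2 (by omega), mul_zero]

end CharTwo

end Pool.Agent.Lib.MP_deca50_lc.Even
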