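import Pool.Agent.Lib.MP_deca50_lc.Even.StepE

/-! Functions on a planar arc that have degree `Q` in every pencil. -/

namespace Pool.Agent.Lib.MP_deca50_lc.Even

open MvPolynomial

variable {F : Type} [Field F] {ι : Type} [DecidableEq ι]

/-- `u` is, for every centre `p`, a form of degree `Q` of the line joining `p` to the point -/
def Good (Q : ℕ) (v : ι → Fin 3 → F) (T : Finset ι) (u : ι → F) : Prop :=
  ∀ p ∈ T, ∃ E : MvPolynomial (Fin 3) F, E.IsHomogeneous Q ∧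
    ∀ s ∈ T, s ≠ p → eval (cr (v p) (v s)) E = u s

/-- rows of the matrix of the negative cross product with `w` -/
def rr (w : Fin 3 → F) : Fin 3 → Fin 3 → F :=
  ![![0, w 2, - w 1], ![- w 2, 0, w 0], ![w 1, - w 0, 0]]

theorem bac_cab (w p s : Fin 3 → F) (i : Fin 3) :
    s i * dt w p = p i * dt w s + dt (rr w i) (cr p s) := by
  fin_cases i <;> simp [dt, rr] <;> ring

theorem sum_X_rr (w : Fin 3 → F) :
    (X 0 : MvPolynomial (Fin 3) F) * lin (rr w 0) + X 1 * lin (rr w 1) + X 2 * lin (rr w 2) = 0 := by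
  simp [lin, rr]; ring

variable [CharP F 2]

theorem exists_syz (h : ℕ) {v : ι → Fin 3 → F} {T : Finset ι} (hA : Arc v T)
    (hlin : ∀ w, Good (2 ^ h) v T (fun s => dt w (v s) ^ 2 ^ h))
    {u : ι → F} (hu : Good (2 ^ h) v T u) :
    ∃ (ψ : MvPolynomial (Fin 3) F) (M : Fin 3 → MvPolynomial (Fin 3) F),
      ψ.IsHomogeneous (2 * 2 ^ h - T.card) ∧ (2 * 2 ^ h < T.card → ψ = 0) ∧
      (∀ i, (M i).IsHomogeneous (2 ^ h)) ∧
      ∑ i, X i ^ 2 ^ h * M i = (∏ s ∈ T, lin (v s)) * ψ ∧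
      ∀ p ∈ T, ∀ s ∈ T, p ≠ s → ∀ i, eval (cr (v p) (v s)) (M i) =
        u s * v p i ^ 2 ^ h + u p * v s i ^ 2 ^ h := by
  have hQ : 1 ≤ 2 ^ h := Nat.one_le_two_pow
  choose! w hw using fun p hp => exists_dt_one (hA.one p hp)
  choose! E hE using hu
  choose! E' hE' using fun p hp => hlin (w p) p hp
  let G : Fin 3 → ι → MvPolynomial (Fin 3) F := fun i p =>
    C (v p i ^ 2 ^ h) * (E p + C (u p) * E' p) + C (u p) * lin (rr (w p) i) ^ 2 ^ h
  have hG : ∀ i, ∀ p ∈ T, (G i p).IsHomogeneous (2 ^ h) := by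
    intro i p hp
    refine (((hE p hp).1.add ((hE' p hp).1.C_mul _)).C_mul _).add (IsHomogeneous.C_mul ?_ _)
    simpa using (lin_hom (rr (w p) i)).pow (2 ^ h)
  have hGv : ∀ i, ∀ p ∈ T, ∀ s ∈ T, p ≠ s → eval (cr (v p) (v s)) (G i p) =
      u s * v p i ^ 2 ^ h + u p * v s i ^ 2 ^ h := by
    intro i p hp s hs hps
    have h1 := bac_cab (w p) (v p) (v s) i
    rw [hw p hp, mul_one] at h1
    have h2 : v s i ^ 2 ^ h = v p i ^ 2 ^ h * dt (w p) (v s) ^ 2 ^ h +
        dt (rr (w p) i) (cr (v p) (v s)) ^ 2 ^ h := by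
      rw [← mul_pow, ← add_pow_char_pow, ← h1]
    simp only [G, map_add, map_mul, map_pow, eval_C, eval_lin, (hE p hp).2 s hs hps.symm,
      (hE' p hp).2 s hs hps.symm]
    rw [h2]; ring
  have hM : ∀ i, ∃ M : MvPolynomial (Fin 3) F, M.IsHomogeneous (2 ^ h) ∧
      ∀ a ∈ T, lin (v a) ∣ M - G i a := by
    intro i
    apply glue v _ (G i) T hA (hG i)
    intro a ha b hb hab
    rw [hGv i a ha b hb hab, cr_comm, hGv i b hb a ha hab.symm, add_comm]
  choose M hM1 hM2 using hM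
  have hΘ : (∑ i, X i ^ 2 ^ h * M i).IsHomogeneous (2 * 2 ^ h) := by
    apply IsHomogeneous.sum
    intro i _
    rw [two_mul]
    exact (isHomogeneous_X_pow i _).mul (hM1 i)
  obtain ⟨ψ, h1, h2, h3⟩ := global_div v _ _ hΘ T hA (by
    intro p hp
    have e1 : lin (v p) ^ 2 ^ h = C (v p 0 ^ 2 ^ h) * X 0 ^ 2 ^ h +
        C (v p 1 ^ 2 ^ h) * X 1 ^ 2 ^ h + C (v p 2 ^ 2 ^ h) * X 2 ^ 2 ^ h := by
      rw [lin, add_pow_char_pow, add_pow_char_pow, mul_pow, mul_pow, mul_pow, map_pow, map_pow,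
        map_pow]
    have e2 : (X 0 : MvPolynomial (Fin 3) F) ^ 2 ^ h * lin (rr (w p) 0) ^ 2 ^ h +
        X 1 ^ 2 ^ h * lin (rr (w p) 1) ^ 2 ^ h + X 2 ^ 2 ^ h * lin (rr (w p) 2) ^ 2 ^ h = 0 := by
      rw [← mul_pow, ← mul_pow, ← mul_pow, ← add_pow_char_pow, ← add_pow_char_pow, sum_X_rr,
        zero_pow (by omega)]
    have e3 : ∑ i, X i ^ 2 ^ h * M i = X 0 ^ 2 ^ h * (M 0 - G 0 p) + X 1 ^ 2 ^ h * (M 1 - G 1 p) +
        X 2 ^ 2 ^ h * (M 2 - G 2 p) + lin (v p) ^ 2 ^ h * (E p + C (u p) * E' p) := by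
      rw [Fin.sum_univ_three, e1]
      simp only [G]
      linear_combination (C (u p)) * e2
    rw [e3]
    exact ((((hM2 0 p hp).mul_left _).add ((hM2 1 p hp).mul_left _)).add
      ((hM2 2 p hp).mul_left _)).add ((dvd_pow_self _ (by omega)).mul_right _))
  refine ⟨ψ, M, h2, h3, hM1, h1, ?_⟩
  intro p hp s hs hps i
  rw [eval_eq_of_dvd (hM2 i p hp) (dt_cr_left _ _), hGv i p hp s hs hps]

theorem stepC (h : ℕ) {v : ι → Fin 3 → F} {T : Finset ι} (hA : Arc v T)
    (hN : 2 ^ h + 2 ≤ T.card) (hN' : T.card ≤ 2 * 2 ^ h + 1)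
    (hlin : ∀ w, Good (2 ^ h) v T (fun s => dt w (v s) ^ 2 ^ h))
    {V : Type} [AddCommGroup V] [Module F V] [FiniteDimensional F V] (Φ : V →ₗ[F] (ι → F))
    (hΦ : ∀ x, Good (2 ^ h) v T (Φ x)) (hinj : ∀ x, (∀ s ∈ T, Φ x s = 0) → x = 0) :
    Module.finrank F V + T.card ≤ 2 * 2 ^ h + 4 := by
  have hQ : 1 ≤ 2 ^ h := Nat.one_le_two_pow
  set P := ∏ s ∈ T, lin (v s) with hP
  let S : Submodule F (V × MvPolynomial (Fin 3) F) :=
    { carrier := {z | ∃ M : Fin 3 → MvPolynomial (Fin 3) F,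
        z.2.IsHomogeneous (2 * 2 ^ h - T.card) ∧ (2 * 2 ^ h < T.card → z.2 = 0) ∧
        (∀ i, (M i).IsHomogeneous (2 ^ h)) ∧ ∑ i, X i ^ 2 ^ h * M i = P * z.2 ∧
        ∀ p ∈ T, ∀ s ∈ T, p ≠ s → ∀ i, eval (cr (v p) (v s)) (M i) =
          Φ z.1 s * v p i ^ 2 ^ h + Φ z.1 p * v s i ^ 2 ^ h}
      add_mem' := by
        rintro a b ⟨M, a1, a2, a3, a4, a5⟩ ⟨M', b1, b2, b3, b4, b5⟩
        refine ⟨M + M', a1.add b1, fun hh => by rw [Prod.snd_add, a2 hh, b2 hh, add_zero],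
          fun i => (a3 i).add (b3 i), ?_, ?_⟩
        · rw [Prod.snd_add, mul_add, ← a4, ← b4, ← Finset.sum_add_distrib]
          simp [mul_add]
        · intro p hp s hs hps i
          rw [Pi.add_apply, map_add, a5 p hp s hs hps, b5 p hp s hs hps, Prod.fst_add, map_add,
            Pi.add_apply, Pi.add_apply]
          ring
      zero_mem' := ⟨0, isHomogeneous_zero _ _ _, fun _ => rfl, fun _ => isHomogeneous_zero _ _ _,
        by simp, by simp⟩
      smul_mem' := by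
        rintro c a ⟨M, a1, a2, a3, a4, a5⟩
        refine ⟨fun i => C c * M i, by rw [Prod.smul_snd, smul_eq_C_mul]; exact a1.C_mul c,
          fun hh => by rw [Prod.smul_snd, a2 hh, smul_zero], fun i => (a3 i).C_mul c, ?_, ?_⟩
        · rw [Prod.smul_snd, smul_eq_C_mul, mul_left_comm, ← a4, Finset.mul_sum]
          exact Finset.sum_congr rfl fun i _ => by ring
        · intro p hp s hs hps i
          rw [map_mul, eval_C, a5 p hp s hs hps, Prod.smul_fst, map_smul, Pi.smul_apply,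
            Pi.smul_apply, smul_eq_mul, smul_eq_mul]
          ring }
  let f : S →ₗ[F] V := (LinearMap.fst F V _).domRestrict S
  have hf : LinearMap.range f = ⊤ := by
    rw [LinearMap.range_eq_top]
    intro x
    obtain ⟨ψ, M, h1⟩ := exists_syz h hA hlin (hΦ x)
    exact ⟨⟨(x, ψ), M, h1⟩, rfl⟩
  obtain ⟨g, hg⟩ := f.exists_rightInverse_of_surjective hf
  let Ψ : V →ₗ[F] MvPolynomial (Fin 3) F := ((LinearMap.snd F V _).domRestrict S).comp g
  have hg1 : ∀ x, (g x).1.1 = x := fun x => LinearMap.congr_fun hg x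
  have hΨ : ∀ x, Ψ x = (g x).1.2 := fun x => rfl
  have d1 := LinearMap.finrank_range_add_finrank_ker Ψ
  have d2 : Module.finrank F (LinearMap.ker Ψ) ≤ 3 := by
    let a : LinearMap.ker Ψ →ₗ[F] (T → F) :=
      (LinearMap.funLeft F F (fun s : T => s.1)).comp (Φ.domRestrict _)
    let b : (Fin 3 → F) →ₗ[F] (T → F) :=
      Fintype.linearCombination F fun i => fun s : T => v s.1 i ^ 2 ^ h
    have ha : Function.Injective a := by
      rw [injective_iff_map_eq_zero]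
      intro x hx
      exact Subtype.ext (hinj x.1 fun s hs => congrFun hx ⟨s, hs⟩)
    have hab : LinearMap.range a ≤ LinearMap.range b := by
      rintro _ ⟨x, rfl⟩
      obtain ⟨M, -, -, a3, a4, a5⟩ := (g x.1).2
      rw [← hΨ, x.2, mul_zero] at a4
      rw [hg1] at a5
      obtain ⟨w, hw⟩ := koszul hQ M a3 a4
      refine ⟨w, ?_⟩
      funext s
      obtain ⟨p, hp, hps⟩ := Finset.exists_mem_ne (s := T) (by omega) s.1
      have e := fun i => (hw (cr (v p) (v s.1)) i).symm.trans (a5 p hp s.1 s.2 hps i)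
      have e0 := e 0
      have e1 := e 1
      have e2 := e 2
      have hne := hA.two p hp s.1 s.2 hps
      simp only [cr_pow] at e0 e1 e2
      simp only [cr0, cr1, cr2] at e0 e1 e2
      have goal : w 0 * v s.1 0 ^ 2 ^ h + w 1 * v s.1 1 ^ 2 ^ h + w 2 * v s.1 2 ^ 2 ^ h =
          Φ x.1 s.1 := by
        by_contra hc
        apply hne
        have hc' := sub_ne_zero.2 hc
        funext j
        apply (pow_eq_zero_iff (n := 2 ^ h) (by omega)).1
        rw [cr_pow]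
        apply mul_left_cancel₀ hc'
        rw [mul_zero]
        fin_cases j
        · simp only [Fin.zero_eta, cr0]
          linear_combination (v s.1 2 ^ 2 ^ h) * e1 - (v s.1 1 ^ 2 ^ h) * e2
        · simp only [Fin.mk_one, cr1]
          linear_combination (v s.1 0 ^ 2 ^ h) * e2 - (v s.1 2 ^ 2 ^ h) * e0
        · simp only [Fin.reduceFinMk, cr2]
          linear_combination (v s.1 1 ^ 2 ^ h) * e0 - (v s.1 0 ^ 2 ^ h) * e1
      simpa [a, b, Fintype.linearCombination_apply, Fin.sum_univ_three] using goal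
    calc Module.finrank F (LinearMap.ker Ψ) = Module.finrank F (LinearMap.range a) :=
          (LinearMap.finrank_range_of_inj ha).symm
      _ ≤ Module.finrank F (LinearMap.range b) := Submodule.finrank_mono hab
      _ ≤ Module.finrank F (Fin 3 → F) := LinearMap.finrank_range_le b
      _ = 3 := by simp
  by_cases hc : T.card ≤ 2 * 2 ^ h
  · have d3 : LinearMap.range Ψ ≤ Ann (2 ^ h) (2 * 2 ^ h - T.card) P := by
      rintro _ ⟨x, rfl⟩
      obtain ⟨M, a1, -, -, a4, -⟩ := (g x).2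
      refine ⟨a1, fun G => ?_⟩
      rw [hΨ, ← a4]
      exact eps_ideal hQ M G
    have d4 := Submodule.finrank_mono d3
    have d5 := stepE h hA (α := 2 * 2 ^ h - T.card) hN (by omega)
    rw [← hP] at d5
    omega
  · have d3 : LinearMap.range Ψ = ⊥ := by
      rw [eq_bot_iff]
      rintro _ ⟨x, rfl⟩
      obtain ⟨M, -, a2, -⟩ := (g x).2
      exact a2 (by omega)
    rw [d3, finrank_bot] at d1
    omega

theorem stepA [Fintype F] (h : ℕ) (h1 : 1 ≤ h) (hq : Fintype.card F = 2 * 2 ^ h)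
    {v : ι → Fin 3 → F} {T : Finset ι} (hA : Arc v T) {i : ι} (hi : i ∈ T)
    (hv : v i = ![0, 0, 1]) :
    ∃ G : MvPolynomial (Fin 3) F, G.IsHomogeneous (2 ^ h) ∧
      ∀ s ∈ T, s ≠ i → eval ![v s 1, v s 0, 0] G = v s 2 ^ 2 ^ h := by
  have hQ : 2 ≤ 2 ^ h := by
    calc 2 = 2 ^ 1 := rfl
      _ ≤ 2 ^ h := Nat.pow_le_pow_right (by omega) h1
  have hsq : ∀ t : F, (t ^ 2 ^ h) ^ 2 = t := by
    intro t
    rw [← pow_mul, mul_comm, ← hq, FiniteField.pow_card]
  have two : (2 : F) = 0 := CharTwo.two_eq_zero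
  have hcr : ∀ s, cr (v i) (v s) = ![v s 1, v s 0, 0] := by
    intro s
    funext j
    fin_cases j <;> simp [hv, CharTwo.neg_eq]
  have hμ : ∀ s ∈ T, ∃ μ : MvPolynomial (Fin 3) F, μ.IsHomogeneous (2 ^ h) ∧
      (∀ P, dt (v s) P = 0 → (eval P (lin (v i) * μ)) ^ 2 = P 0 * P 1 * P 2) ∧
      (s ≠ i → eval ![v s 1, v s 0, 0] μ = v s 2 ^ 2 ^ h) := by
    intro s hs
    by_cases hsi : s = i
    · refine ⟨0, isHomogeneous_zero _ _ _, ?_, fun hh => absurd hsi hh⟩
      intro P hP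
      rw [hsi, hv] at hP
      simp [dt] at hP
      simp [hP]
    · have hne := hA.two i hi s hs (Ne.symm hsi)
      rw [hcr] at hne
      obtain ⟨w, hw⟩ := exists_dt_one hne
      simp only [dt, Matrix.cons_val_zero, Matrix.cons_val_one, Matrix.cons_val, mul_zero,
        add_zero] at hw
      let W : MvPolynomial (Fin 3) F := lin ![w 0, w 1, 0]
      refine ⟨C ((v s 0 * v s 1) ^ 2 ^ h) * (W * X 2 ^ (2 ^ h - 1)) +
        C (v s 2 ^ 2 ^ h) * W ^ 2 ^ h + C ((w 0 * w 1) ^ 2 ^ h * v s 2) * X 2 ^ 2 ^ h, ?_, ?_, ?_⟩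
      · refine (IsHomogeneous.add (IsHomogeneous.C_mul ?_ _) (IsHomogeneous.C_mul ?_ _)).add
          ((isHomogeneous_X_pow _ _).C_mul _)
        · have := (lin_hom ![w 0, w 1, 0]).mul (isHomogeneous_X_pow (R := F) 2 (2 ^ h - 1))
          rwa [show 1 + (2 ^ h - 1) = 2 ^ h by omega] at this
        · simpa using (lin_hom ![w 0, w 1, 0]).pow (2 ^ h)
      · intro P hP
        obtain ⟨y, hy⟩ : ∃ y, y = w 0 * P 0 + w 1 * P 1 := ⟨_, rfl⟩
        have e0 : eval P W = y := by simp [W, dt, hy]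
        have e1 : eval P (lin (v i)) = P 2 := by simp [hv, dt]
        have e2 : P 2 * P 2 ^ (2 ^ h - 1) = P 2 ^ 2 ^ h := by
          rw [← pow_succ']; congr 1; omega
        rw [dt] at hP
        have hx : P 0 = v s 1 * y + w 1 * v s 2 * P 2 := by
          rw [hy]
          linear_combination (w 1 * v s 0 * P 0) * two - P 0 * hw - w 1 * hP
        have hx' : P 1 = v s 0 * y + w 0 * v s 2 * P 2 := by
          rw [hy]
          linear_combination (w 0 * v s 1 * P 1) * two - P 1 * hw - w 0 * hP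
        have e3 : P 0 * P 1 = v s 0 * v s 1 * y ^ 2 + v s 2 * y * P 2 +
            w 0 * w 1 * v s 2 ^ 2 * P 2 ^ 2 := by
          calc P 0 * P 1 = (v s 1 * y + w 1 * v s 2 * P 2) * (v s 0 * y + w 0 * v s 2 * P 2) := by
                rw [← hx, ← hx']
            _ = _ := by linear_combination (v s 2 * y * P 2) * hw
        simp only [map_add, map_mul, map_pow, eval_C, eval_X, e0, e1]
        have e4 : P 2 * ((v s 0 * v s 1) ^ 2 ^ h * (y * P 2 ^ (2 ^ h - 1)) +
            v s 2 ^ 2 ^ h * y ^ 2 ^ h + (w 0 * w 1) ^ 2 ^ h * v s 2 * P 2 ^ 2 ^ h) =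
            (v s 0 * v s 1) ^ 2 ^ h * y * P 2 ^ 2 ^ h + P 2 * v s 2 ^ 2 ^ h * y ^ 2 ^ h +
              (w 0 * w 1) ^ 2 ^ h * v s 2 * P 2 * P 2 ^ 2 ^ h := by
          linear_combination ((v s 0 * v s 1) ^ 2 ^ h * y) * e2
        rw [e4, CharTwo.add_sq, CharTwo.add_sq, e3]
        simp only [mul_pow _ _ 2, hsq]
        ring
      · intro _
        have e0 : eval ![v s 1, v s 0, 0] W = 1 := by simp [W, dt, hw]
        have z1 : (0 : F) ^ (2 ^ h - 1) = 0 := zero_pow (by omega)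
        have z2 : (0 : F) ^ 2 ^ h = 0 := zero_pow (by omega)
        simp only [map_add, map_mul, map_pow, eval_C, eval_X, e0, Matrix.cons_val, z1, z2]
        simp
  choose! μ hμ1 hμ2 hμ3 using hμ
  obtain ⟨M, hM, hD⟩ := glue v (2 ^ h + 1) (fun s => lin (v i) * μ s) T hA
    (fun a ha => by rw [add_comm]; exact (lin_hom _).mul (hμ1 a ha))
    (fun a ha b hb _ => by
      apply CharTwo.sq_injective
      show _ ^ 2 = _ ^ 2
      rw [hμ2 a ha _ (dt_cr_left _ _), hμ2 b hb _ (dt_cr_right _ _)])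
  obtain ⟨M', rfl⟩ : lin (v i) ∣ M := by
    have := (hD i hi).add (dvd_mul_right (lin (v i)) (μ i))
    simpa using this
  refine ⟨M', hom_of_lin_mul (hA.one i hi) hM, ?_⟩
  intro s hs hsi
  have h2 := hD s hs
  rw [← mul_sub] at h2
  have h3 := ((lin_prime (hA.one s hs)).dvd_or_dvd h2).resolve_left
    (not_lin_dvd_lin (hA.two s hs i hi hsi))
  rw [← hμ3 s hs hsi]
  apply eval_eq_of_dvd h3
  rw [← hcr, dt_cr_right]

end Pool.Agent.Lib.MP_deca50_lc.Even
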