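import Pool.Agent.Lib.MP_deca50_lc.Even.Goren

/-! The annihilator of the product of the lines in its lowest possible degree. -/

namespace Pool.Agent.Lib.MP_deca50_lc.Even

open MvPolynomial

variable {F : Type} [Field F]

/-- forms of degree `α` whose product with `P` is killed by the socle functional -/
def Ann (Q α : ℕ) (P : MvPolynomial (Fin 3) F) : Submodule F (MvPolynomial (Fin 3) F) where
  carrier := {ψ | ψ.IsHomogeneous α ∧ ∀ g, coeff (top Q) (P * ψ * g) = 0}
  add_mem' := by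
    rintro a b ⟨ha, ha'⟩ ⟨hb, hb'⟩
    refine ⟨ha.add hb, fun g => ?_⟩
    rw [mul_add, add_mul, coeff_add, ha', hb', add_zero]
  zero_mem' := ⟨isHomogeneous_zero _ _ _, fun g => by simp⟩
  smul_mem' := by
    rintro c a ⟨ha, ha'⟩
    refine ⟨by rw [smul_eq_C_mul]; exact ha.C_mul c, fun g => ?_⟩
    rw [mul_smul_comm, smul_mul_assoc, coeff_smul, ha', smul_zero]

instance (Q α : ℕ) (P : MvPolynomial (Fin 3) F) : FiniteDimensional F (Ann Q α P) := by
  have h1 : FiniteDimensional F (homogeneousSubmodule (Fin 3) F α) :=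
    Module.Finite.iff_fg.2 (homogeneousSubmodule_fg _ _ α)
  exact Submodule.finiteDimensional_of_le (S₂ := homogeneousSubmodule (Fin 3) F α)
    (fun ψ hψ => hψ.1)

variable {ι : Type} [DecidableEq ι]

omit [DecidableEq ι] in
theorem prod_hom (v : ι → Fin 3 → F) (T : Finset ι) :
    (∏ s ∈ T, lin (v s)).IsHomogeneous T.card := by
  have := IsHomogeneous.prod T (fun s => lin (v s)) (fun _ => 1) (fun s _ => lin_hom (v s))
  simpa using this

omit [DecidableEq ι] in
theorem prod_ne_zero {v : ι → Fin 3 → F} {T : Finset ι} (hA : Arc v T) :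
    (∏ s ∈ T, lin (v s)) ≠ 0 :=
  Finset.prod_ne_zero_iff.2 fun s hs => lin_ne_zero (hA.one s hs)

/-- spanning: forms of degree `α + j` modulo `p`, `f₀` come from degree `α` times powers of `u`. -/
theorem span_step {Q α : ℕ} {P ψ f₀ : MvPolynomial (Fin 3) F} {p u : Fin 3 → F}
    (hpu : cr p u ≠ 0) (hf : f₀ ∈ Ann Q α P) (hf0 : eval (cr p u) f₀ ≠ 0)
    (hψ : ∀ g, coeff (top Q) (P * (lin p * ψ) * g) = 0) (e : ℕ)
    (h0 : ∀ G : MvPolynomial (Fin 3) F, G.IsHomogeneous α →
      coeff (top Q) (P * ψ * lin u ^ e * G) = 0) :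
    ∀ j i, i + j = e → ∀ G : MvPolynomial (Fin 3) F, G.IsHomogeneous (α + j) →
      coeff (top Q) (P * ψ * lin u ^ i * G) = 0 := by
  obtain ⟨w, hw⟩ := exists_dt_one hpu
  intro j
  induction j with
  | zero =>
    intro i hi G hG
    obtain rfl : i = e := by omega
    exact h0 G hG
  | succ j ih =>
    intro i hi G hG
    let c : F := eval (cr p u) G / eval (cr p u) f₀
    have h1 : (G - C c * (lin w ^ (j + 1) * f₀)).IsHomogeneous (α + j + 1) := by
      apply hG.sub
      have := (((lin_hom w).pow (j + 1)).mul hf.1).C_mul c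
      rwa [one_mul, add_comm (j + 1) α] at this
    have h2 : eval (cr p u) (G - C c * (lin w ^ (j + 1) * f₀)) = 0 := by
      rw [map_sub, map_mul, map_mul, map_pow, eval_lin, hw, eval_C, one_pow, one_mul,
        div_mul_cancel₀ _ hf0, sub_self]
    obtain ⟨A, B, hA, -, hE⟩ := point_div hpu h1 h2
    have h3 : P * ψ * lin u ^ i * G = P * f₀ * (C c * lin w ^ (j + 1) * ψ * lin u ^ i) +
        P * ψ * lin u ^ (i + 1) * A + P * (lin p * ψ) * (lin u ^ i * B) := by
      linear_combination (P * ψ * lin u ^ i) * hE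
    rw [h3, coeff_add, coeff_add, hf.2, ih (i + 1) (by omega) A hA, hψ, add_zero, add_zero]

theorem stepE [CharP F 2] (h : ℕ) {v : ι → Fin 3 → F} {T : Finset ι} (hA : Arc v T) {α : ℕ}
    (hN : 2 ^ h + 2 ≤ T.card) (hα : T.card + α = 2 * 2 ^ h) :
    Module.finrank F (Ann (2 ^ h) α (∏ s ∈ T, lin (v s))) ≤ α + 1 := by
  classical
  have hQ : 1 ≤ 2 ^ h := Nat.one_le_two_pow
  set P := ∏ s ∈ T, lin (v s) with hP
  set I := Ann (2 ^ h) α P with hI
  by_cases hbot : I = ⊥
  · rw [hbot]; simp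
  obtain ⟨f₀, hf, hf0⟩ := Submodule.exists_mem_ne_zero_of_ne_bot hbot
  obtain ⟨p, hp, hpf⟩ : ∃ p ∈ T, ¬ lin (v p) ∣ f₀ := by
    by_contra hc
    push Not at hc
    obtain ⟨ψ, h1, -, h2⟩ := global_div v α f₀ hf.1 T hA hc
    exact hf0 (by rw [h1, h2 (by omega), mul_zero])
  have hce : (T.erase p).card = T.card - 1 := Finset.card_erase_of_mem hp
  obtain ⟨u, hu, huf⟩ : ∃ u ∈ T.erase p, eval (cr (v p) (v u)) f₀ ≠ 0 := by
    by_contra hc
    push Not at hc
    exact hpf (hA.dvd_of_nodes hp (Finset.Subset.refl _) hf.1 (by omega) hc)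
  have hpu : cr (v p) (v u) ≠ 0 :=
    hA.two p hp u (Finset.mem_erase.1 hu).2 (Finset.mem_erase.1 hu).1.symm
  obtain ⟨T₁, hT₁, hc₁⟩ := Finset.exists_subset_card_eq (s := T.erase p) (n := α + 1) (by omega)
  obtain ⟨e, he⟩ : ∃ e, T.card = 2 ^ h + 2 + e := ⟨T.card - (2 ^ h + 2), by omega⟩
  -- evaluation at the nodes of T₁
  let ev : MvPolynomial (Fin 3) F →ₗ[F] (T₁ → F) :=
    LinearMap.pi fun s => (aeval (cr (v p) (v s.1))).toLinearMap
  have hev : ∀ g (s : T₁), ev g s = eval (cr (v p) (v s.1)) g := fun g s => by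
    simp [ev]
  have hker : ∀ g : MvPolynomial (Fin 3) F, g.IsHomogeneous α → ev g = 0 → lin (v p) ∣ g := by
    intro g hg h0
    apply hA.dvd_of_nodes hp hT₁ hg (by omega)
    intro s hs
    rw [← hev g ⟨s, hs⟩, h0]; rfl
  -- Lagrange forms
  let L : T₁ → MvPolynomial (Fin 3) F := fun s => ∏ s' ∈ T₁.erase s.1, lin (v s')
  have hL : ∀ s, (L s).IsHomogeneous α := by
    intro s
    have := prod_hom v (T₁.erase s.1)
    rwa [Finset.card_erase_of_mem s.2, hc₁, Nat.add_sub_cancel] at this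
  have hLd : ∀ s, ev (L s) s ≠ 0 := by
    intro s
    rw [hev, map_prod]
    apply Finset.prod_ne_zero_iff.2
    intro s' hs'
    have h1 := Finset.mem_erase.1 hs'
    have h2 := Finset.mem_erase.1 (hT₁ h1.2)
    have h3 := Finset.mem_erase.1 (hT₁ s.2)
    rw [eval_lin]
    exact hA.three p hp s h3.2 s' h2.2 h3.1.symm h2.1.symm h1.1.symm
  have hLo : ∀ s s' : T₁, s' ≠ s → ev (L s) s' = 0 := by
    intro s s' hne
    rw [hev, map_prod]
    apply Finset.prod_eq_zero (i := s'.1)
    · exact Finset.mem_erase.2 ⟨fun h => hne (Subtype.ext h), s'.2⟩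
    · rw [eval_lin, dt_cr_right]
  let η : (T₁ → F) →ₗ[F] MvPolynomial (Fin 3) F :=
    Fintype.linearCombination F fun s => (ev (L s) s)⁻¹ • L s
  have hη : ∀ y, (η y).IsHomogeneous α := by
    intro y
    simp only [η, Fintype.linearCombination_apply]
    apply IsHomogeneous.sum
    intro s _
    rw [smul_eq_C_mul, smul_eq_C_mul]
    exact ((hL s).C_mul _).C_mul _
  have hevη : ∀ y, ev (η y) = y := by
    intro y
    funext s'
    simp only [η, Fintype.linearCombination_apply, map_sum, map_smul, Finset.sum_apply,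
      Pi.smul_apply, smul_eq_mul]
    rw [Finset.sum_eq_single s']
    · rw [inv_mul_cancel₀ (hLd s'), mul_one]
    · intro s _ hs
      rw [hLo s s' hs.symm, mul_zero, mul_zero]
    · simp
  -- the kernel part
  let mulp : MvPolynomial (Fin 3) F →ₗ[F] MvPolynomial (Fin 3) F := LinearMap.mulLeft F (lin (v p))
  let K : Submodule F (MvPolynomial (Fin 3) F) := I.comap mulp
  let B : MvPolynomial (Fin 3) F →ₗ[F] Module.Dual F (T₁ → F) :=
    LinearMap.mk₂ F (fun ψ y => coeff (top (2 ^ h)) (P * ψ * lin (v u) ^ e * η y))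
      (fun a b y => by rw [mul_add, add_mul, add_mul, coeff_add])
      (fun c a y => by rw [mul_smul_comm, smul_mul_assoc, smul_mul_assoc, coeff_smul])
      (fun a y z => by rw [map_add, mul_add, coeff_add])
      (fun c a y => by rw [map_smul, mul_smul_comm, coeff_smul])
  have hB : ∀ ψ ∈ K, ∀ g : MvPolynomial (Fin 3) F, g.IsHomogeneous α →
      B ψ (ev g) = coeff (top (2 ^ h)) (P * ψ * lin (v u) ^ e * g) := by
    intro ψ hψ g hg
    have h1 : lin (v p) ∣ η (ev g) - g :=
      hker _ ((hη _).sub hg) (by rw [map_sub, hevη, sub_self])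
    obtain ⟨D, hD⟩ := h1
    have h2 : P * ψ * lin (v u) ^ e * η (ev g) = P * ψ * lin (v u) ^ e * g +
        P * (lin (v p) * ψ) * (lin (v u) ^ e * D) := by
      linear_combination (P * ψ * lin (v u) ^ e) * hD
    have h3 : coeff (top (2 ^ h)) (P * (lin (v p) * ψ) * (lin (v u) ^ e * D)) = 0 := hψ.2 _
    show coeff (top (2 ^ h)) (P * ψ * lin (v u) ^ e * η (ev g)) = _
    rw [h2, coeff_add, h3, add_zero]
  let J : Submodule F (T₁ → F) := I.map ev
  have hBJ : ∀ ψ ∈ K, B ψ ∈ J.dualAnnihilator := by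
    intro ψ hψ
    rw [Submodule.mem_dualAnnihilator]
    rintro _ ⟨g, hg, rfl⟩
    rw [hB ψ hψ g hg.1]
    have h1 : P * ψ * lin (v u) ^ e * g = P * g * (ψ * lin (v u) ^ e) := by ring
    rw [h1]
    exact hg.2 _
  have hinj : ∀ ψ ∈ K, B ψ = 0 → ψ = 0 := by
    intro ψ hψ h0
    have hψ1 : (lin (v p) * ψ).IsHomogeneous α := hψ.1
    cases α with
    | zero => exact eq_zero_of_lin_mul (hA.one p hp) hψ1
    | succ a =>
      have hψ2 := hom_of_lin_mul (hA.one p hp) hψ1
      have h1 := span_step hpu hf huf hψ.2 e (by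
        intro G hG
        rw [← hB ψ hψ G hG, h0]; rfl) e 0 (by omega)
      obtain ⟨M, hM, hE⟩ := mem_of_eps (Q := 2 ^ h) (D := T.card + a) (E := a + 1 + e)
        (by omega) ((prod_hom v T).mul hψ2) (by
          intro G hG
          have := h1 G hG
          rwa [pow_zero, mul_one] at this)
      have h2 : T.card + a - 2 ^ h = 2 ^ h - 1 := by omega
      rw [h2] at hM
      have h3 := stepD h hA (by omega) (by omega) M hM (by
        intro s hs
        rw [← hE]
        exact (Finset.dvd_prod_of_mem (fun s => lin (v s)) hs).mul_right _)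
      have h4 : P * ψ = 0 := by
        rw [hP, hE]; simp [h3]
      exact (mul_eq_zero.1 h4).resolve_left (prod_ne_zero hA)
  let B' : K →ₗ[F] J.dualAnnihilator :=
    (B.domRestrict K).codRestrict _ fun ψ => hBJ ψ.1 ψ.2
  have hB' : Function.Injective B' := by
    rw [injective_iff_map_eq_zero]
    intro ψ h0
    exact Subtype.ext (hinj ψ.1 ψ.2 (congrArg Subtype.val h0))
  have hKfin : FiniteDimensional F K := Module.Finite.of_injective B' hB'
  have d1 : Module.finrank F K ≤ Module.finrank F J.dualAnnihilator :=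
    LinearMap.finrank_le_finrank_of_injective hB'
  have d2 := Subspace.finrank_add_finrank_dualAnnihilator_eq J
  rw [Module.finrank_fintype_fun_eq_card, Fintype.card_coe, hc₁] at d2
  have d3 := LinearMap.finrank_range_add_finrank_ker (ev.domRestrict I)
  rw [LinearMap.range_domRestrict] at d3
  have d4 : Module.finrank F (LinearMap.ker (ev.domRestrict I)) ≤ Module.finrank F K := by
    rw [← Submodule.finrank_map_subtype_eq I]
    refine le_trans (Submodule.finrank_mono (t := K.map mulp) ?_) (Submodule.finrank_map_le _ _)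
    rintro _ ⟨ψ, hψ, rfl⟩
    obtain ⟨D, hD⟩ := hker ψ.1 ψ.2.1 hψ
    refine ⟨D, ?_, hD.symm⟩
    show lin (v p) * D ∈ I
    rw [← hD]; exact ψ.2
  have d5 : Module.finrank F (I.map ev) = Module.finrank F J := rfl
  omega

end Pool.Agent.Lib.MP_deca50_lc.Even
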